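import Pool.Agent.Work.MP_3d425c_gt.Cw.X
import Pool.Agent.Work.MP_3d425c_gt.Jw.Root

/-! Roots fix canonical walls; the direction of a crossing; vertical walls. -/

namespace Pool.Agent.Work.MP_3d425c_gt.Cw
open Set MulAction Pool.Agent.Work.MP_3d425c_gt.Md Pool.Agent.Work.MP_3d425c_gt.Bg
  Pool.Agent.Work.MP_3d425c_gt.Bq Pool.Agent.Work.MP_3d425c_gt.Jw
open scoped Pointwise

variable {G X0 X1 X2 X3 : Type} [Group G] [MulAction G X0] [MulAction G X1] [MulAction G X2]
  [MulAction G X3] {T : Tri G X0 X1 X2 X3} {A B B' D : Set X0} {a b c g h : G}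

theorem vn_pow (S : Std T) (c1 : c ≠ 1) {n : ℤ} (e : c ^ n = 1) : n = 0 :=
  (ori_pow S.tf e).resolve_right c1

theorem vn_ne (hM : Mfd T) (k : Can T A) : A.Nonempty :=
  nonempty_iff_ne_empty.2 fun e => k.big hM (by
    have := SmP.empty (P := stabilizer G A) (A := X0)
    rwa [← e] at this)

theorem vn_mem (k : g • A = A) (x : X0) : g • x ∈ A ↔ x ∈ A := by
  conv_lhs => rw [← k]
  exact smul_mem_smul_set_iff

theorem vn_zpow (k : g • A = A) (n : ℤ) : g ^ n • A = A := (stabilizer G A).zpow_mem k n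

/-- the group of a canonical wall is abelian -/
theorem Can.commute (S : Std T) (k : Can T A) (ha : a • A = A) (hb : b • A = A) : Commute a b := by
  obtain ⟨i⟩ := k.z2 S
  exact congrArg Subtype.val (i.injective (by rw [map_mul, map_mul, mul_comm]) :
    (⟨a, ha⟩ * ⟨b, hb⟩ : stabilizer G A) = ⟨b, hb⟩ * ⟨a, ha⟩)

theorem Can.fix_st (S : Std T) (k : Can T A) : g • st T A = st T A ↔ g • A = A := by
  rw [← mem_stabilizer_iff, cn_st_eq S k, mem_stabilizer_iff]

/-- a nontrivial element of the group of a wall is part of a basis of a lattice in it -/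
theorem Can.ray (S : Std T) (k : Can T A) (c1 : c ≠ 1) (hc : c • A = A) :
    ∃ p : G, p • A = A ∧ Z2 c p := by
  obtain ⟨a, b, z, -, -, le, -⟩ := k.idx S.mfd
  have ha : a • A = A := le (Subgroup.subset_closure (.inl rfl))
  have hb : b • A = A := le (Subgroup.subset_closure (.inr rfl))
  by_contra n
  have dp : ∀ p : G, p • A = A → ∃ i j : ℤ, j ≠ 0 ∧ c ^ i * p ^ j = 1 := fun p hp => by
    by_contra q
    refine n ⟨p, hp, k.commute S hc hp, fun i j e => ?_⟩
    have j0 : j = 0 := by_contra fun l => q ⟨i, j, l, e⟩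
    rw [j0, zpow_zero, mul_one] at e
    exact ⟨vn_pow S c1 e, j0⟩
  obtain ⟨i, j, j0, e⟩ := dp a ha
  obtain ⟨i', j', j0', e'⟩ := dp b hb
  have f : a ^ j = c ^ (-i) := by rw [zpow_neg, eq_inv_iff_mul_eq_one, ← e]; exact
    ((k.commute S ha hc).zpow_zpow j i).eq
  have f' : b ^ j' = c ^ (-i') := by rw [zpow_neg, eq_inv_iff_mul_eq_one, ← e']; exact
    ((k.commute S hb hc).zpow_zpow j' i').eq
  have := z.2 (j * i') (-(j' * i)) (by
    rw [zpow_neg, zpow_mul, zpow_mul, f, f', ← zpow_mul, ← zpow_mul, mul_inv_eq_one]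
    congr 1
    ring)
  have i0 : i' = 0 := (mul_eq_zero.1 this.1).resolve_left j0
  rw [i0, zpow_zero, one_mul] at e'
  exact j0' (z.2 0 j' (by rw [zpow_zero, one_mul, e'])).2

/-- a root, in the group of some wall, of an element that fixes `B` fixes `B` -/
theorem root2 (S : Std T) (hA : Can T A) (hB : Can T B) (cA : c • A = A) {k : ℤ} (k0 : k ≠ 0)
    (cB : c ^ k • B = B) : c • B = B := by
  by_cases c1 : c = 1
  · rw [c1, one_smul]
  obtain ⟨n, n0, cB⟩ : ∃ n : ℕ, 0 < n ∧ c ^ n • B = B := ⟨k.natAbs, Int.natAbs_pos.2 k0, by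
    rw [← zpow_natCast]
    rcases Int.natAbs_eq k with q | q
    · rwa [← q]
    · rw [q, zpow_neg, inv_smul_eq_iff] at cB
      exact cB.symm⟩
  obtain ⟨p, -, zp⟩ := hA.ray S c1 cA
  obtain ⟨q, hq, zq⟩ := hB.ray S (c := c ^ n) (fun e => n0.ne' (by
    exact_mod_cast vn_pow S c1 (n := n) (by rw [zpow_natCast, e]))) cB
  obtain ⟨l, l0, cm⟩ := root S.mfd S.nh n0 zp.1 zp.2 zq.1 zq.2
  have z : Z2 (c ^ n) (q ^ l) := ⟨zq.1.pow_right l, fun i j e => by
    have := zq.2 i (l * j) (by rwa [zpow_mul, zpow_natCast])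
    exact ⟨this.1, (mul_eq_zero.1 this.2).resolve_left (by exact_mod_cast l0.ne')⟩⟩
  have n1 : (n : ℤ) ≠ 0 := by exact_mod_cast n0.ne'
  obtain ⟨D, hD, d1, d2⟩ := exists_can S (a := c) (b := q ^ l) ⟨cm, fun i j e => by
    have := z.2 i (j * n) (by
      rw [← zpow_natCast c, ← zpow_mul, mul_comm (n : ℤ), zpow_mul, zpow_mul,
        ← (cm.zpow_zpow i j).mul_zpow, e, one_zpow])
    exact ⟨this.1, (mul_eq_zero.1 this.2).resolve_right n1⟩⟩
  rcases hB.comm S hD z cB ((stabilizer G B).pow_mem hq l) ((stabilizer G D).pow_mem d1 n) d2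
    with e | e
  · rwa [e] at d1
  · rwa [e, hB.fix_st S] at d1

theorem Nst.symm (S : Std T) (hA : Can T A) (hB : Can T B) (n : Nst T A B) : Nst T B A := by
  rcases n with n | n | n | n
  · exact .inr (.inr (.inr n))
  · exact .inr (.inl (hB.st_st S ▸ hA.st_anti S (hB.star S) n :))
  · exact .inr (.inr (.inl (hA.st_st S ▸ (hA.star S).st_anti S hB n :)))
  · exact .inl n

theorem Nst.of_st (S : Std T) (hA : Can T A) (hB : Can T B) (n : Nst T A (st T B)) :
    Nst T A B := by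
  rcases n with n | n | n | n
  · exact .inr (.inl n)
  · exact .inl (hB.st_st S ▸ n)
  · have := (hA.star S).st_anti S (hB.star S) n
    rw [hA.st_st S, hB.st_st S] at this
    exact .inr (.inr (.inr this))
  · have := (hB.star S).st_anti S hA n
    rw [hB.st_st S] at this
    exact .inr (.inr (.inl this))

theorem Nst.to_st (S : Std T) (hA : Can T A) (hB : Can T B) (n : Nst T A B) :
    Nst T A (st T B) := Nst.of_st S hA (hB.star S) (by rwa [hB.st_st S])

/-- nested walls: a side of the second one lies in a side of the first one -/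
theorem Nst.sides (S : Std T) (hA : Can T A) (hB : Can T B) (n : Nst T A B) :
    ∃ A' B', (A' = A ∨ A' = st T A) ∧ (B' = B ∨ B' = st T B) ∧ B' ⊆ A' := by
  rcases n with n | n | n | n
  · exact ⟨_, _, .inr rfl, .inr rfl, hA.st_anti S hB n⟩
  · exact ⟨_, _, .inr rfl, .inl rfl, (hB.st_st S ▸ hA.st_anti S (hB.star S) n :)⟩
  · exact ⟨_, _, .inl rfl, .inr rfl, (hA.st_st S ▸ (hA.star S).st_anti S hB n :)⟩
  · exact ⟨_, _, .inl rfl, .inl rfl, n⟩

/-- walls with a common lattice are nested -/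
theorem nst_of_z2 (S : Std T) (hA : Can T A) (hB : Can T B) (z : Z2 a b) (h1 : a • A = A)
    (h2 : b • A = A) (k1 : a • B = B) (k2 : b • B = B) : Nst T A B :=
  (hA.comm S hB z h1 h2 k1 k2).elim (fun e => .inl e.ge) fun e => .inr (.inr (.inl e.ge))

/-- the common group of two walls that cross is infinite cyclic -/
theorem cross_gen (S : Std T) (hA : Can T A) (hB : Can T B) (n : ¬ Nst T A B) :
    ∃ h : G, h ≠ 1 ∧ ∀ g : G, g • A = A ∧ g • B = B ↔ g ∈ Subgroup.zpowers h := by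
  obtain ⟨i⟩ := hA.z2 S
  have : IsCyclic ↥(stabilizer G A ⊓ stabilizer G B) := by
    by_contra q
    obtain ⟨a, b, cm, ind, e⟩ := d1_basis _ _ inf_le_left i q
    have ma := (e a).2 ⟨1, 0, by rw [zpow_one, zpow_zero, mul_one]⟩
    have mb := (e b).2 ⟨0, 1, by rw [zpow_one, zpow_zero, one_mul]⟩
    exact n (nst_of_z2 S hA hB ⟨cm, ind⟩ ma.1 mb.1 ma.2 mb.2)
  obtain ⟨⟨h, hh⟩, e⟩ := IsCyclic.exists_generator (α := ↥(stabilizer G A ⊓ stabilizer G B))
  have k : ∀ g : G, g • A = A ∧ g • B = B ↔ g ∈ Subgroup.zpowers h := fun g =>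
    ⟨fun q => (e ⟨g, q⟩).imp fun _ r => congrArg Subtype.val r,
      fun ⟨j, r⟩ => r ▸ (stabilizer G A ⊓ stabilizer G B).zpow_mem hh j⟩
  refine ⟨h, fun q => n (x1 S hA hB fun g u v => ?_), k⟩
  simpa [q] using (k g).1 ⟨u, v⟩

/-- an element that commensurates the direction of a crossing normalises it -/
theorem comm_norm (S : Std T) (hA : Can T A) (hB : Can T B) (h1 : h ≠ 1)
    (e : ∀ g : G, g • A = A ∧ g • B = B ↔ g ∈ Subgroup.zpowers h) {m n : ℤ}
    (mn : ¬ (m = 0 ∧ n = 0)) (d : (g * h * g⁻¹) ^ m = h ^ n) :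
    g * h * g⁻¹ = h ∨ g * h * g⁻¹ = h⁻¹ := by
  have hh := (e h).2 (Subgroup.mem_zpowers h)
  have key : ∀ (g : G) (m n : ℤ), m ≠ 0 → (g * h * g⁻¹) ^ m = h ^ n →
      ∃ i : ℤ, h ^ i = g * h * g⁻¹ := fun g m n m0 d => by
    have f : (g * h * g⁻¹) • g • A = g • A := by rw [mul_smul, inv_smul_smul, mul_smul, hh.1]
    exact (e _).1 ⟨root2 S (hA.smul g) hA f m0 (d ▸ vn_zpow hh.1 n),
      root2 S (hA.smul g) hB f m0 (d ▸ vn_zpow hh.2 n)⟩
  have m0 : m ≠ 0 := fun q => mn ⟨q, vn_pow S h1 (by rw [← d, q, zpow_zero])⟩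
  have n0 : n ≠ 0 := fun q => m0 (vn_pow S h1 (by
    rwa [q, zpow_zero, conj_zpow, conj_eq_one_iff] at d))
  obtain ⟨i, hi⟩ := key g m n m0 d
  obtain ⟨j, hj⟩ := key g⁻¹ n m n0 (by
    rw [conj_zpow] at d ⊢
    rw [← d]
    group)
  have e1 : h ^ (i * j) = h ^ (1 : ℤ) := by
    rw [zpow_mul, hi, conj_zpow, hj]
    group
  rcases Int.eq_one_or_neg_one_of_mul_eq_one
    (injective_zpow_iff_not_isOfFinOrder.2 (S.tf h h1) e1) with q | q
  · exact .inl (by rw [← hi, q, zpow_one])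
  · exact .inr (by rw [← hi, q, zpow_neg_one])

/-- a wall that crosses one of two crossing walls contains their direction -/
theorem vert_one (S : Std T) (hA : Can T A) (hB : Can T B) (n : ¬ Nst T A B) (hA' : h • A = A)
    (hB' : h • B = B) (hD : Can T D) (k : ¬ Nst T A D) : h • D = D := by
  by_cases h1 : h = 1
  · rw [h1, one_smul]
  obtain ⟨c, c1, e⟩ := cross_gen S hA hD k
  have hc := (e c).2 (Subgroup.mem_zpowers c)
  obtain ⟨i, j, i0, -, q⟩ := x2 S hA hB hD n k h1 c1 hA' hB' hc.1 hc.2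
  exact root2 S hA hD hA' i0 (q ▸ vn_zpow hc.2 j)

/-- V: a wall that crosses a vertical wall is vertical -/
theorem vert (S : Std T) (hA : Can T A) (hB : Can T B) (n : ¬ Nst T A B) (hA' : h • A = A)
    (hB' : h • B = B) (hD : Can T D) (hD' : h • D = D) (hW : Can T B') (k : ¬ Nst T D B') :
    h • B' = B' := by
  by_contra nv
  have h1 : h ≠ 1 := fun q => nv (by rw [q, one_smul])
  obtain ⟨A', W, a1, w1, s⟩ := Nst.sides S hA hW (by_contra fun q =>
    nv (vert_one S hA hB n hA' hB' hW q))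
  have cA : Can T A' := by
    rcases a1 with rfl | rfl
    exacts [hA, hA.star S]
  have fA : h • st T A' = st T A' := by
    rcases a1 with rfl | rfl
    exacts [(hA.fix_st S).2 hA', ((hA.star S).fix_st S).2 ((hA.fix_st S).2 hA')]
  obtain ⟨d, d1, e⟩ := cross_gen S hD hW k
  have hd := (e d).2 (Subgroup.mem_zpowers d)
  have fW : d • W = W := by
    rcases w1 with rfl | rfl
    exacts [hd.2, (hW.fix_st S).2 hd.2]
  have cW : Can T W := by
    rcases w1 with rfl | rfl
    exacts [hW, hW.star S]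
  have cm := hD.commute S hd.1 hD'
  obtain ⟨y, hy⟩ := vn_ne S.mfd (cA.star S)
  have z : Z2 d h := ⟨cm, fun i j q => by
    have j0 : j = 0 := by_contra fun l => nv (root2 S hA hW hA' l (by
      rw [eq_inv_of_mul_eq_one_right q, ← zpow_neg]
      exact vn_zpow hd.2 _))
    rw [j0, zpow_zero, mul_one] at q
    exact ⟨vn_pow S d1 q, j0⟩⟩
  have := x0 S hD cW z hd.1 hD' y (.inr fun q hq m => by
    obtain ⟨i, j, rfl⟩ := (mem_pp cm q).1 hq
    rw [mul_smul, vn_mem (vn_zpow fW i)] at m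
    exact cA.st_sub S ((vn_mem (vn_zpow fA j) y).2 hy) (s m))
  rcases w1 with rfl | rfl
  exacts [k this, k (this.of_st S hD hW)]

end Pool.Agent.Work.MP_3d425c_gt.Cw
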