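import Pool.Agent.Work.MP_3d425c_gt.Fs.Defs
import Pool.Agent.Work.MP_3d425c_gt.Fs.VN

/-! The fibre of two crossing walls. -/

namespace Pool.Agent.Work.MP_3d425c_gt.Fs
open Set MulAction Pool.Agent.Work.MP_3d425c_gt.Md Pool.Agent.Work.MP_3d425c_gt.Bg
  Pool.Agent.Work.MP_3d425c_gt.Bq Pool.Agent.Work.MP_3d425c_gt.Cw
open scoped Pointwise

variable {G X0 X1 X2 X3 : Type} [Group G] [MulAction G X0] [MulAction G X1] [MulAction G X2]
  [MulAction G X3] {T : Tri G X0 X1 X2 X3} {B D B₀ B₁ : Set X0} {h : G}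

theorem exists_fib (S : Std T) (h0 : Can T B₀) (h1 : Can T B₁) (c : ¬ Nst T B₀ B₁) :
    ∃ h, Fib T h B₀ B₁ :=
  let ⟨h, n, e⟩ := cross_gen S h0 h1 c
  ⟨h, h0, h1, c, n, e⟩

theorem Fib.vert (S : Std T) (F : Fib T h B₀ B₁) (hD : Can T D) (f : h • D = D) (hB : Can T B)
    (c : ¬ Nst T D B) : h • B = B :=
  let k := (F.gen h).2 (Subgroup.mem_zpowers h)
  Cw.vert S F.c0 F.c1 F.cr k.1 k.2 hD f hB c

end Pool.Agent.Work.MP_3d425c_gt.Fs
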