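import Pool.Agent.Work.MP_3d425c_gt.Cw.Un

/-! The intersection of the walls of a family that contain a given set. -/

namespace Pool.Agent.Work.MP_3d425c_gt.Fs
open Set MulAction Pool.Agent.Work.MP_3d425c_gt.Md Pool.Agent.Work.MP_3d425c_gt.Bg
  Pool.Agent.Work.MP_3d425c_gt.Bq Pool.Agent.Work.MP_3d425c_gt.Jw Pool.Agent.Work.MP_3d425c_gt.Cw
open scoped Pointwise

variable {G X0 X1 X2 X3 : Type} [Group G] [MulAction G X0] [MulAction G X1] [MulAction G X2]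
  [MulAction G X3] {T : Tri G X0 X1 X2 X3}

theorem cp_orb {X Y : Type} [MulAction G X] [MulAction G Y] {H : Subgroup G} {D : Set X}
    (hD : SmP H D) {R : X → Y → Prop} (inv : ∀ g ∈ H, ∀ x y, R x y → R (g • x) (g • y))
    (fin : ∀ x, {y | R x y}.Finite) (y : Y) : SmP (H ⊓ stabilizer G y) {x | x ∈ D ∧ R x y} := by
  have c : ∀ y' : Y, ∃ γ ∈ H, (∃ g ∈ H, g • y' = y) → γ • y' = y := fun y' => by
    by_cases h : ∃ g ∈ H, g • y' = y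
    · exact ⟨h.choose, h.choose_spec.1, fun _ => h.choose_spec.2⟩
    · exact ⟨1, one_mem _, fun k => (h k).elim⟩
  choose γ mγ hγ using c
  obtain ⟨K, hK, k⟩ := hD
  refine ⟨⋃ o ∈ K, (fun y' => γ y' • o) '' {y' | R o y'}, hK.biUnion fun o _ => (fin _).image _,
    fun x hx => ?_⟩
  obtain ⟨o, ho, h, mh, rfl⟩ := k x hx.1
  have r : R o (h⁻¹ • y) := by simpa only [inv_smul_smul] using inv h⁻¹ (inv_mem mh) _ _ hx.2
  have e := hγ (h⁻¹ • y) ⟨h, mh, smul_inv_smul _ _⟩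
  refine ⟨_, mem_biUnion ho ⟨_, r, rfl⟩, h * (γ (h⁻¹ • y))⁻¹,
    ⟨H.mul_mem mh (H.inv_mem (mγ _)), ?_⟩, ?_⟩
  · show (h * (γ (h⁻¹ • y))⁻¹) • y = y
    rw [mul_smul, inv_smul_eq_iff.2 e.symm, smul_inv_smul]
  · rw [mul_smul, inv_smul_smul]

theorem cp_union {X E : Type} [MulAction G X] [MulAction G E] {H : Subgroup G} {L : Set E}
    (hL : SmP H L) {R : X → E → Prop} (inv : ∀ g ∈ H, ∀ x y, R x y → R (g • x) (g • y))
    (hH : ∀ g ∈ H, ∀ e ∈ L, g • e ∈ L) (fin : ∀ e ∈ L, SmP H {x | R x e}) :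
    SmP H {x | ∃ e ∈ L, R x e} := by
  obtain ⟨K, hK, k⟩ := hL
  choose! M hM m using fin
  refine ⟨⋃ o ∈ K ∩ L, M o, (hK.inter_of_left L).biUnion fun o ho => hM o ho.2, ?_⟩
  rintro x ⟨e, he, r⟩
  obtain ⟨o, ho, g, mg, rfl⟩ := k e he
  have oL : o ∈ L := by simpa only [inv_smul_smul] using hH g⁻¹ (inv_mem mg) _ he
  obtain ⟨c, hc, p, hp, b⟩ := m o oL (g⁻¹ • x)
    (show R _ _ by simpa only [inv_smul_smul] using inv g⁻¹ (inv_mem mg) _ _ r)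
  exact ⟨c, mem_biUnion (x := o) ⟨ho, oL⟩ hc, g * p, mul_mem mg hp,
    by rw [mul_smul, ← b, smul_inv_smul]⟩

/-- the walls that contain `W` are the walls through any point of their intersection -/
theorem cap_eq (C : Cf T) {L : Set (Set X0)} (can : ∀ l ∈ L, Can T l) (star : ∀ l ∈ L, st T l ∈ L)
    {W : Set X0} (sub : ∀ l ∈ L, W ⊆ l ∨ W ⊆ st T l) {x : X0}
    (hx : x ∈ ⋂₀ {l | l ∈ L ∧ W ⊆ l}) : {l | l ∈ L ∧ W ⊆ l} = {l | l ∈ L ∧ x ∈ l} :=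
  Set.ext fun l => and_congr_right fun hl => ⟨fun k => hx l ⟨hl, k⟩, fun k =>
    (sub l hl).resolve_right fun j => C.dis l (can l hl) (hx _ ⟨star l hl, j⟩) k⟩

/-- the coboundary of a cell is finite modulo the group of the cell -/
theorem cap_cut (C : Cf T) {L : Set (Set X0)} {H : Subgroup G} (can : ∀ l ∈ L, Can T l)
    (star : ∀ l ∈ L, st T l ∈ L) (hH : ∀ g ∈ H, ∀ l ∈ L, g • l ∈ L) (ho : SmP H L)
    (le : ∀ l ∈ L, stabilizer G l ≤ H) {W : Set X0} (sub : ∀ l ∈ L, W ⊆ l ∨ W ⊆ st T l) :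
    SmP (H ⊓ stabilizer G {l | l ∈ L ∧ W ⊆ l}) (cut T (⋂₀ {l | l ∈ L ∧ W ⊆ l})) := by
  have pi : ∀ g ∈ H, ∀ x : X0, g • {l | l ∈ L ∧ x ∈ l} = {l | l ∈ L ∧ g • x ∈ l} :=
    fun g hg x => Set.ext fun l => by
      rw [mem_smul_set_iff_inv_smul_mem]
      exact and_congr ⟨fun k => by simpa only [smul_inv_smul] using hH g hg _ k,
        hH g⁻¹ (H.inv_mem hg) l⟩ mem_inv_smul_set_iff
  refine (cp_orb (cp_union ho (R := fun ε A => ε ∈ cut T A) (fun g _ ε A k => (un_cut g A ε).2 k)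
      hH fun l hl => (C.fin l (can l hl)).le (le l hl))
    (R := fun ε τ => τ = {l | l ∈ L ∧ T.d1 ε 0 ∈ l} ∨ τ = {l | l ∈ L ∧ T.d1 ε 1 ∈ l})
    (fun g hg ε τ k => ?_) (fun ε => (finite_singleton _).insert _) _).mono fun ε k => ?_
  · rw [T.e1, T.e1, ← pi g hg, ← pi g hg]
    exact k.imp (congrArg _) (congrArg _)
  · have k : ¬ (T.d1 ε 0 ∈ ⋂₀ {l | l ∈ L ∧ W ⊆ l} ↔ T.d1 ε 1 ∈ ⋂₀ {l | l ∈ L ∧ W ⊆ l}) := k
    by_cases a : T.d1 ε 0 ∈ ⋂₀ {l | l ∈ L ∧ W ⊆ l}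
    · refine ⟨?_, .inl (cap_eq C can star sub a)⟩
      by_contra n
      exact k (iff_of_true a fun l hl => (not_not.1 fun j => n ⟨l, hl.1, j⟩ :
        T.d1 ε 0 ∈ l ↔ T.d1 ε 1 ∈ l).1 (a l hl))
    · have b : T.d1 ε 1 ∈ ⋂₀ {l | l ∈ L ∧ W ⊆ l} := not_not.1 fun b => k (iff_of_false a b)
      refine ⟨?_, .inr (cap_eq C can star sub b)⟩
      by_contra n
      exact a fun l hl => (not_not.1 fun j => n ⟨l, hl.1, j⟩ :
        T.d1 ε 0 ∈ l ↔ T.d1 ε 1 ∈ l).2 (b l hl)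

end Pool.Agent.Work.MP_3d425c_gt.Fs
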