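import Pool.Agent.Work.MP_3d425c_gt.Cw.Un
import Pool.Agent.Work.MP_3d425c_gt.Bq.Top

/-! Crossing walls with a common fibre: definitions. -/

namespace Pool.Agent.Work.MP_3d425c_gt.Fs
open Set MulAction Relation Pool.Agent.Work.MP_3d425c_gt.Md Pool.Agent.Work.MP_3d425c_gt.Bg
  Pool.Agent.Work.MP_3d425c_gt.Bq Pool.Agent.Work.MP_3d425c_gt.Cw
open scoped Pointwise

variable {G X0 X1 X2 X3 : Type} [Group G] [MulAction G X0] [MulAction G X1] [MulAction G X2]
  [MulAction G X3] (T : Tri G X0 X1 X2 X3)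

/-- the standing hypotheses -/
structure Sd : Prop where
  std : Std T
  dual : ∀ E : Subgroup G, ¬ E.FiniteIndex → E.FG → Dual T E
  bound : Bound T

/-- two crossing walls whose common group is generated by `h` -/
structure Fib (h : G) (B₀ B₁ : Set X0) : Prop where
  c0 : Can T B₀
  c1 : Can T B₁
  cr : ¬ Nst T B₀ B₁
  ne : h ≠ 1
  gen : ∀ g : G, g • B₀ = B₀ ∧ g • B₁ = B₁ ↔ g ∈ Subgroup.zpowers h

/-- a family of walls fixed by `h` that is connected under crossing -/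
structure Stage (h : G) (L : Set (Set X0)) : Prop where
  ne : h ≠ 1
  nonempty : L.Nonempty
  can : ∀ l ∈ L, Can T l
  fix : ∀ l ∈ L, h • l = l
  star : ∀ l ∈ L, st T l ∈ L
  crs : ∀ l ∈ L, ∃ l' ∈ L, ¬ Nst T l l'
  con : ∀ l ∈ L, ∀ l' ∈ L, ReflTransGen (fun A B => B ∈ L ∧ ¬ Nst T A B) l l'
  orb : SmP (stabilizer G L) L
  nrm : ∀ g ∈ stabilizer G L, g * h * g⁻¹ = h ∨ g * h * g⁻¹ = h⁻¹
  le : ∀ l ∈ L, stabilizer G l ≤ stabilizer G L

/-- the frontier wall of the family `L` towards `W` -/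
structure Frt (h : G) (L : Set (Set X0)) (W D : Set X0) : Prop where
  can : Can T D
  fix : h • D = D
  sub : W ⊆ D
  ins : ∀ l ∈ L, W ⊆ l → D ⊆ l
  nst : ∀ B, Can T B → (∀ l ∈ L, Nst T B l) → Nst T B D

end Pool.Agent.Work.MP_3d425c_gt.Fs
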