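import Pool.Agent.Work.MP_3d425c_gt.Sv.TopA
import Pool.Agent.Work.MP_3d425c_gt.Fs.Defs
import Pool.Agent.Work.MP_3d425c_gt.Cw.Skel

/-! Pairwise disjoint walls are independent, so they force many characters. -/

namespace Pool.Agent.Work.MP_3d425c_gt.Fs
open Set MulAction Pool.Agent.Work.MP_3d425c_gt.Md Pool.Agent.Work.MP_3d425c_gt.Bg
  Pool.Agent.Work.MP_3d425c_gt.Bq Pool.Agent.Work.MP_3d425c_gt.Jw Pool.Agent.Work.MP_3d425c_gt.Cw
open scoped Pointwise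

variable {G X0 X1 X2 X3 : Type} [Group G] [MulAction G X0] [MulAction G X1] [MulAction G X2]
  [MulAction G X3] {T : Tri G X0 X1 X2 X3} {E : Subgroup G}

/-- A member of an invariant point-finite family that is finite modulo `E` is finite modulo its
stabiliser in `E`. -/
theorem cnt_lf {X : Type} [MulAction G X] {A : Set X}
    (lf : ∀ x, {B : Set X | (∃ g ∈ E, B = g • A) ∧ x ∈ B}.Finite) (h : SmP E A) :
    SmP (E ⊓ stabilizer G A) A := by
  classical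
  obtain ⟨K, hK, h⟩ := h
  have c : ∀ B : Set X, ∃ g : G, (∃ g ∈ E, B = g • A) → g ∈ E ∧ B = g • A := fun B => by
    by_cases k : ∃ g ∈ E, B = g • A
    · obtain ⟨g, k⟩ := k
      exact ⟨g, fun _ => k⟩
    · exact ⟨1, fun k' => (k k').elim⟩
  choose γ hγ using c
  refine ⟨⋃ k ∈ K, (fun B => (γ B)⁻¹ • k) '' {B : Set X | (∃ g ∈ E, B = g • A) ∧ k ∈ B},
    hK.biUnion fun k _ => (lf k).image _, fun x hx => ?_⟩
  obtain ⟨k, hk, p, hp, rfl⟩ := h x hx
  have m : ∃ g ∈ E, p⁻¹ • A = g • A := ⟨p⁻¹, inv_mem hp, rfl⟩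
  obtain ⟨a, b⟩ := hγ _ m
  refine ⟨(γ (p⁻¹ • A))⁻¹ • k, mem_iUnion₂.2 ⟨k, hk, p⁻¹ • A,
    ⟨m, mem_inv_smul_set_iff.2 hx⟩, rfl⟩, p * γ (p⁻¹ • A), ⟨mul_mem hp a, ?_⟩, ?_⟩
  · show (p * γ (p⁻¹ • A)) • A = A
    rw [mul_smul, ← b, smul_inv_smul]
  · rw [mul_smul, smul_inv_smul]

/-- a subgroup of finite index has finitely many orbits of vertices -/
theorem cnt_fi (hM : Mfd T) (f : E.FiniteIndex) (Z : Set X0) : SmP E Z := by
  have := or_fin0 hM
  have a : SmP (⊤ : Subgroup G) Z := by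
    refine ⟨range fun q : Ob G X0 => q.out, finite_range _, fun x _ => ?_⟩
    obtain ⟨g, hg⟩ : x ∈ orbit G (ob G x).out :=
      Quotient.exact (Quotient.out_eq (ob G x)).symm
    exact ⟨_, ⟨ob G x, rfl⟩, g, trivial, hg.symm⟩
  exact wl_fi a inferInstance

/-- the translates of `A` -/
def cntU (E : Subgroup G) (A : Set X0) : Set X0 := {x | ∃ g ∈ E, x ∈ g • A}

section
variable {A : Set X0} (dj : ∀ g ∈ E, ∀ x ∈ A, g • x ∈ A → g • A = A)
include dj

theorem cnt_sub (x : X0) :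
    (Function.support fun q : E ⧸ (stabilizer G A).subgroupOf E =>
      wi A (q.out⁻¹ • x)).Subsingleton := by
  intro q hq q' hq'
  have a : q.out⁻¹ • x ∈ A := by_contra fun k => hq (wi_neg k)
  have b : q'.out⁻¹ • x ∈ A := by_contra fun k => hq' (wi_neg k)
  rw [← q.out_eq, ← q'.out_eq]
  refine QuotientGroup.eq.2 (dj _ (q.out⁻¹ * q'.out).2 _ b ?_)
  show (q.out⁻¹ * q'.out) • q'.out⁻¹ • x ∈ A
  rwa [mul_smul, smul_inv_smul]

theorem cnt_wi (x : X0) :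
    ∑ᶠ q : E ⧸ (stabilizer G A).subgroupOf E, wi A (q.out⁻¹ • x) = wi (cntU E A) x := by
  by_cases a : x ∈ cntU E A
  · rw [wi_pos a]
    obtain ⟨g, hg, k⟩ := a
    obtain ⟨p, hp⟩ := QuotientGroup.mk_out_eq_mul ((stabilizer G A).subgroupOf E) (⟨g, hg⟩ : E)
    have b : wi A ((QuotientGroup.mk (s := (stabilizer G A).subgroupOf E)
        (⟨g, hg⟩ : E)).out⁻¹ • x) = 1 := by
      refine wi_pos ?_
      rw [hp]
      have e : ((p : E) : G) • A = A := p.2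
      show (g * ((p : E) : G))⁻¹ • x ∈ A
      rwa [← mem_smul_set_iff_inv_smul_mem, mul_smul, e]
    rw [finsum_eq_single _ (QuotientGroup.mk (s := (stabilizer G A).subgroupOf E) (⟨g, hg⟩ : E))
      fun q n => ?_, b]
    by_contra m
    exact n (cnt_sub dj x m (b.trans_ne one_ne_zero))
  · rw [wi_neg a]
    exact finsum_eq_zero_of_forall_eq_zero fun q =>
      wi_neg fun k => a ⟨_, q.out.2, mem_smul_set_iff_inv_smul_mem.2 k⟩

theorem cnt_wz (e : X1) :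
    sm0 ((stabilizer G A).subgroupOf E) (wz T A) e = wz T (cntU E A) e := by
  have a : ∀ (q : E ⧸ (stabilizer G A).subgroupOf E) i,
      T.d1 (q.out⁻¹ • e) i = q.out⁻¹ • T.d1 e i := fun q i => T.e1 ((q.out⁻¹ : E) : G) e i
  unfold sm0 wz
  simp only [a]
  rw [finsum_sub_distrib (cnt_sub dj _).finite (cnt_sub dj _).finite, cnt_wi dj, cnt_wi dj]

end

theorem cnt_top {X : Type} [MulAction G X] {S : Set X} (h : SmP (⊤ : Subgroup E) S) :
    SmP E S := by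
  obtain ⟨K, hK, k⟩ := h
  refine ⟨K, hK, fun x hx => ?_⟩
  obtain ⟨y, hy, p, -, c⟩ := k x hx
  exact ⟨y, hy, p, p.2, c⟩

/-- `k` sets with pairwise disjoint translates, coboundaries finite modulo their stabilisers, and
a large set outside all of them force more than `k` characters. -/
theorem cnt0 (hM : Mfd T) (tf : ∀ a : G, a ≠ 1 → ¬ IsOfFinOrder a)
    (hd : ¬ E.FiniteIndex → E.FG → Dual T E) (fg : E.FG) {k n : ℕ} (w : Fin k → Set X0)
    (dj : ∀ i j, ∀ g ∈ E, ∀ x ∈ w i, g • x ∈ w j → i = j ∧ g • w i = w i)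
    (fin : ∀ i, SmP (E ⊓ stabilizer G (w i)) (cut T (w i)))
    (big : ∀ i, ¬ SmP (E ⊓ stabilizer G (w i)) (w i)) {Z : Set X0} (hZ : ¬ SmP E Z)
    (out : ∀ i, ∀ g ∈ E, ∀ x ∈ Z, g • x ∉ w i) (κ : Fin n → E) (d : Det κ) (le : n ≤ k) :
    IsCyclic E := by
  classical
  have nf : ¬ E.FiniteIndex := fun f => hZ (cnt_fi hM f Z)
  have d1 : ∀ i, ∀ g ∈ E, ∀ x ∈ w i, g • x ∈ w i → g • w i = w i :=
    fun i g hg x hx k => (dj i i g hg x hx k).2
  refine Sv.topA0 hM tf nf fg (hd nf fg) (P := fun i => (stabilizer G (w i)).subgroupOf E)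
    (z := fun i => wz T (w i)) (fun i => ⟨wz_coc _, fun p hp e => ?_, ?_⟩)
    (fun c s _ hs e => funext fun i => ?_) κ d (by simpa using le)
  · have a : (p : G) • w i = w i := hp
    have b : ∀ x, wi (w i) ((p : G) • x) = wi (w i) x := fun x => wi_congr (by
      have : (p : G) • x ∈ (p : G) • w i ↔ x ∈ w i := smul_mem_smul_set_iff
      rwa [a] at this)
    show wz T (w i) ((p : G) • e) = _
    unfold wz
    rw [T.e1, T.e1, b, b]
  · obtain ⟨K, hK, h⟩ := fin i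
    refine ⟨K, hK, fun x hx => ?_⟩
    obtain ⟨y, hy, p, hp, c⟩ := h x (wz_ne hx)
    exact ⟨y, hy, ⟨p, hp.1⟩, hp.2, c⟩
  · have hs := cnt_top hs
    have ct := const_of hM (t := fun x => s x - ∑ i, c i * wi (cntU E (w i)) x) fun a => by
      have := e a
      simp only [fun i => cnt_wz (T := T) (d1 i) a, wz, mul_sub, Finset.sum_sub_distrib] at this
      show _ - _ = _ - _
      linarith
    obtain ⟨x₀, h₀, z⟩ : ∃ x ∈ Z, s x = 0 := by
      by_contra m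
      exact hZ (hs.mono fun x hx k => m ⟨x, hx, k⟩)
    by_contra m
    refine big i (cnt_lf (fun x => Set.Subsingleton.finite ?_) (hs.mono fun x hx k => m ?_))
    · rintro _ ⟨⟨g, hg, rfl⟩, a⟩ _ ⟨⟨g', hg', rfl⟩, a'⟩
      have := d1 i (g'⁻¹ * g) (mul_mem (inv_mem hg') hg) _ (mem_smul_set_iff_inv_smul_mem.1 a)
        (by rw [mul_smul, smul_inv_smul]; exact mem_smul_set_iff_inv_smul_mem.1 a')
      rw [mul_smul, inv_smul_eq_iff] at this
      exact this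
    have a := ct x x₀
    have b : ∑ j, c j * wi (cntU E (w j)) x₀ = 0 := Finset.sum_eq_zero fun j _ => by
      rw [wi_neg, mul_zero]
      exact fun ⟨a, ha, k⟩ =>
        out j a⁻¹ (inv_mem ha) x₀ h₀ (mem_smul_set_iff_inv_smul_mem.1 k)
    have d : ∑ j, c j * wi (cntU E (w j)) x = c i := by
      have u : x ∈ cntU E (w i) := ⟨1, one_mem _, by rwa [one_smul]⟩
      rw [Finset.sum_eq_single i (fun j _ m => ?_) fun m => absurd (Finset.mem_univ i) m,
        wi_pos u, mul_one]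
      rw [wi_neg, mul_zero]
      exact fun ⟨a, ha, k⟩ => m
        (dj i j a⁻¹ (inv_mem ha) x hx (mem_smul_set_iff_inv_smul_mem.1 k)).1.symm
    simp only [b, d, z, k] at a
    show c i = 0
    linarith

/-- The same for an invariant family `F` of pairwise disjoint sets whose stabilisers are lattices
of rank two. -/
theorem cnt1 (hM : Mfd T) (tf : ∀ a : G, a ≠ 1 → ¬ IsOfFinOrder a)
    (hd : ¬ E.FiniteIndex → E.FG → Dual T E) (fg : E.FG) (F : Set (Set X0))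
    (inv : ∀ g ∈ E, ∀ D ∈ F, g • D ∈ F)
    (dj : ∀ D ∈ F, ∀ D' ∈ F, ∀ x ∈ D, x ∈ D' → D = D')
    (iso : ∀ D ∈ F, Nonempty (stabilizer G D ≃* Multiplicative (ℤ × ℤ)))
    (fin : ∀ D ∈ F, SmP (stabilizer G D) (cut T D))
    (big : ∀ D ∈ F, ¬ SmP (stabilizer G D) D) {Z : Set X0} (hZ : ¬ SmP E Z)
    (out : ∀ D ∈ F, ∀ x ∈ Z, x ∉ D) {k n : ℕ} (w : Fin k → Set X0) (hw : ∀ i, w i ∈ F)
    (hne : ∀ i j, ∀ g ∈ E, g • w i = w j → i = j)
    (hn : ∀ i, ¬ IsCyclic (E ⊓ stabilizer G (w i) : Subgroup G)) (κ : Fin n → E) (d : Det κ)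
    (le : n ≤ k) : IsCyclic E := by
  refine cnt0 hM tf hd fg w (fun i j g hg x hx k => ?_)
    (fun i => wl_fi (fin _ (hw i)) (wl_rank inf_le_right (iso _ (hw i)).some (hn i)))
    (fun i h => big _ (hw i) (h.le inf_le_right)) hZ (fun i g hg x hx k => ?_) κ d le
  · have a := dj _ (inv g hg _ (hw i)) _ (hw j) _ (smul_mem_smul_set hx) k
    obtain rfl := hne i j g hg a
    exact ⟨rfl, a⟩
  · exact out _ (inv g⁻¹ (inv_mem hg) _ (hw i)) x hx (mem_inv_smul_set_iff.2 k)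

/-- a group that contains a basis of a lattice of rank two is not cyclic -/
theorem cnt_nc {P : Subgroup G} {a b : G} (z : Z2 a b) (ha : a ∈ P) (hb : b ∈ P) :
    ¬ IsCyclic P := fun c => by
  obtain ⟨g, hg⟩ := c.exists_zpow_surjective
  obtain ⟨m, e1⟩ := hg ⟨a, ha⟩
  obtain ⟨n, e2⟩ := hg ⟨b, hb⟩
  have a1 : (g : G) ^ m = a := congrArg Subtype.val e1
  have b1 : (g : G) ^ n = b := congrArg Subtype.val e2
  have k := z.2 n (-m) (by
    rw [← a1, ← b1, ← zpow_mul, ← zpow_mul, ← zpow_add, show m * n + n * -m = 0 by ring, zpow_zero])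
  have k' := z.2 0 1 (by rw [← b1, k.1]; simp)
  exact one_ne_zero k'.2

theorem cnt (S : Sd T) {E : Subgroup G} (fg : E.FG) {F : Set (Set X0)} (can : ∀ D ∈ F, Can T D)
    (inv : ∀ g ∈ E, ∀ D ∈ F, g • D ∈ F) (dis : ∀ D ∈ F, ∀ D' ∈ F, D = D' ∨ D ⊆ D'ᶜ)
    {R : Set X0} (out : ∀ D ∈ F, R ⊆ Dᶜ) (big : ¬ SmP E R) {k n : ℕ} (w : Fin k → Set X0)
    (hw : ∀ i, w i ∈ F) (hne : ∀ i j, ∀ g ∈ E, g • w i = w j → i = j)
    (rk : ∀ i, ∃ a ∈ E, ∃ b ∈ E, Z2 a b ∧ a • w i = w i ∧ b • w i = w i) (κ : Fin n → E)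
    (h0 : ∀ φ : E →* Multiplicative ℝ, (∀ i, φ (κ i) = 1) → φ = 1) (le : n ≤ k) :
    IsCyclic E :=
  cnt1 S.std.mfd S.std.tf (S.dual E) fg F inv
    (fun D h D' h' _ hx hx' => (dis D h D' h').resolve_right fun k => k hx hx')
    (fun D h => (can D h).z2 S.std) (fun D h => (can D h).fin)
    (fun D h => (can D h).big S.std.mfd) big (fun D h _ hx => out D h hx) w hw hne
    (fun i => let ⟨_, ha, _, hb, z, a, b⟩ := rk i; cnt_nc z ⟨ha, a⟩ ⟨hb, b⟩) κ h0 le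

end Pool.Agent.Work.MP_3d425c_gt.Fs
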