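import Pool.Agent.Work.MP_3d425c_gt.Fs.Defs
import Pool.Agent.Work.MP_3d425c_gt.Cw.Can

/-! The frontier wall of a cell. -/

namespace Pool.Agent.Work.MP_3d425c_gt.Fs
open Set MulAction Relation Pool.Agent.Work.MP_3d425c_gt.Md Pool.Agent.Work.MP_3d425c_gt.Bg
  Pool.Agent.Work.MP_3d425c_gt.Bq Pool.Agent.Work.MP_3d425c_gt.Cw Pool.Agent.Work.MP_3d425c_gt.Jw
open scoped Pointwise

variable {G X0 X1 X2 X3 : Type} [Group G] [MulAction G X0] [MulAction G X1] [MulAction G X2]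
  [MulAction G X3] {T : Tri G X0 X1 X2 X3} {A B D W Z l l' : Set X0} {a b h u : G}
  {L : Set (Set X0)}

/-- a canonical wall is not finite modulo a lattice -/
theorem en_big (hM : Mfd T) (hA : Can T A) (z : Z2 a b) : ¬ SmP (pp a b) A := fun n =>
  let ⟨_, _, z', w, k, _, _⟩ := hA.idx hM
  w.big ((sm2_iff z').2 (cn_fi n (cn_rk z z' (cn_orb T.free n k.mn.inv (cn_ne' w.big)))))

theorem en_cases (S : Std T) (hB : Can T B) (hl : Can T l) (n : Nst T B l) :
    (B ⊆ l ∨ B ⊆ st T l) ∨ (st T B ⊆ l ∨ st T B ⊆ st T l) := by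
  rcases n with n | n | n | n
  exacts [.inl (.inl n), .inl (.inr n), .inr (.inl n), .inr (.inr (hl.st_anti S hB n))]

theorem en_opp (S : Std T) (hB : Can T B) (hl : Can T l) (hl' : Can T l')
    (p : B ⊆ l ∨ B ⊆ st T l) (q : st T B ⊆ l' ∨ st T B ⊆ st T l') : Nst T l l' := by
  rcases p with p | p
  · rcases q with q | q
    · exact .inr (.inr (.inl ((hB.st_anti S hl p).trans q)))
    · have := (hB.star S).st_anti S (hl'.star S) q
      rw [hl'.st_st S, hB.st_st S] at this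
      exact .inr (.inr (.inr (this.trans p)))
  · have := hB.st_anti S (hl.star S) p
    rw [hl.st_st S] at this
    rcases q with q | q
    exacts [.inl (this.trans q), .inr (.inl (this.trans q))]

/-- a wall that is nested with a connected family lies on one side of it -/
theorem en_side (S : Std T) (can : ∀ l ∈ L, Can T l)
    (con : ∀ l ∈ L, ∀ l' ∈ L, ReflTransGen (fun A B => B ∈ L ∧ ¬ Nst T A B) l l') (hB : Can T B)
    (n : ∀ l ∈ L, Nst T B l) :
    (∀ l ∈ L, B ⊆ l ∨ B ⊆ st T l) ∨ ∀ l ∈ L, st T B ⊆ l ∨ st T B ⊆ st T l := by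
  by_cases c : ∃ l ∈ L, B ⊆ l ∨ B ⊆ st T l
  · obtain ⟨l, hl, c⟩ := c
    refine .inl fun l' hl' => ?_
    have k := con l hl l' hl'
    clear hl'
    suffices l' ∈ L ∧ (B ⊆ l' ∨ B ⊆ st T l') from this.2
    induction k with
    | refl => exact ⟨hl, c⟩
    | tail _ k ih => exact ⟨k.1, (en_cases S hB (can _ k.1) (n _ k.1)).resolve_right fun q =>
        k.2 (en_opp S hB (can _ ih.1) (can _ k.1) ih.2 q)⟩
  · exact .inr fun l hl => (en_cases S hB (can l hl) (n l hl)).resolve_left fun q => c ⟨l, hl, q⟩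

/-- a set with small frontier between two walls has the same walls inside as the inner wall -/
theorem en_sub (hM : Mfd T) (z : Z2 a b) (hZ : Inv (pp a b) Z) (f : SmP (pp a b) (cut T Z))
    (hD : Can T D) (ha : a • D = D) (hb : b • D = D) (s : D ⊆ Z) (hA : Can T A) (o : A ⊆ Zᶜ)
    (hB : Can T B) (k : B ⊆ Z) : B ⊆ D := by
  have w := cn_mk z hZ f (fun n => en_big hM hD z (n.mono s)) fun n => en_big hM hA z (n.mono o)
  have le : pp a b ≤ stabilizer G D := (Subgroup.closure_le _).2 (by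
    rintro _ (rfl | rfl)
    exacts [ha, hb])
  rcases wall_uniq hM z.1 z.2 w (cn_fix hM hD z ha hb).1 with n | n
  · refine hB.sub hM hD (SmP.le (SmP.mono (cn_nr hM (B := Zᶜ) (by rwa [compl_compl])
      (cn_ne' w.big') (fun p hp x => not_congr (hZ p hp x)) hB.fin ((sm2_iff z).1 n))
      fun x hx => ⟨hx.1, fun e => hx.2 (e.1 (k hx.1))⟩) (inf_le_inf_left _ le))
  · exact (en_big hM hD z (((sm2_iff z).1 n).mono fun x hx e => e.1 (s hx) hx)).elim

theorem frt_of (S : Std T) (hL : Stage T h L) (hW : Can T W)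
    (sub : ∀ l ∈ L, W ⊆ l ∨ W ⊆ st T l) {J : Subgroup G} (hZ : Inv J (⋂₀ {l ∈ L | W ⊆ l}))
    (f : SmP J (cut T (⋂₀ {l ∈ L | W ⊆ l}))) (hD : Can T D) (hJ : h ∈ J) (uJ : u ∈ J)
    (z : Z2 h u) (fix : ∀ g ∈ J, g • D = D) (ins : ∀ l ∈ L, W ⊆ l → D ⊆ l) :
    Frt T h L W D := by
  have le : pp h u ≤ J := (Subgroup.closure_le _).2 (by
    rintro _ (rfl | rfl)
    exacts [hJ, uJ])
  obtain ⟨l₀, m₀, s₀⟩ : ∃ l ∈ L, W ⊆ l := by
    obtain ⟨l, hl⟩ := hL.nonempty
    exact (sub l hl).elim (fun k => ⟨l, hl, k⟩) fun k => ⟨_, hL.star l hl, k⟩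
  have key : ∀ B, Can T B → (∀ l ∈ L, W ⊆ l → B ⊆ l) → B ⊆ D := fun B hB k =>
    en_sub S.mfd z (fun p hp => hZ p (le hp))
      (cn_fi f (mt (Subgroup.relIndex_eq_zero_of_le_right (show J ≤ stabilizer G D from fix))
        (cn_fix S.mfd hD z (fix h hJ) (fix u uJ)).2))
      hD (fix h hJ) (fix u uJ) (subset_sInter fun l hl => ins l hl.1 hl.2)
      ((hL.can _ m₀).star S) (((hL.can _ m₀).st_sub S).trans
        (compl_subset_compl.2 (sInter_subset_of_mem ⟨m₀, s₀⟩)))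
      hB (subset_sInter fun l hl => k l hl.1 hl.2)
  have two : ∀ B, Can T B → (∀ l ∈ L, B ⊆ l ∨ B ⊆ st T l) → B ⊆ D ∨ B ⊆ st T D := fun B hB k => by
    by_cases c : ∀ l ∈ L, W ⊆ l → B ⊆ l
    · exact .inl (key B hB c)
    · push Not at c
      obtain ⟨l, hl, c, d⟩ := c
      exact .inr (((k l hl).resolve_left d).trans (hD.st_anti S (hL.can l hl) (ins l hl c)))
  refine ⟨hD, fix h hJ, key W hW fun _ _ k => k, ins, fun B hB n => ?_⟩
  rcases en_side S hL.can hL.con hB n with k | k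
  · exact (two B hB k).elim .inl fun k => .inr (.inl k)
  · rcases two _ (hB.star S) k with k | k
    · exact .inr (.inr (.inl k))
    · have := (hB.star S).st_anti S (hD.star S) k
      rw [hD.st_st S, hB.st_st S] at this
      exact .inr (.inr (.inr this))

end Pool.Agent.Work.MP_3d425c_gt.Fs
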