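import Pool.Agent.Work.MP_3d425c_gt.Fs.Base

/-! The walls that lie inside one cell of a family of crossing walls. -/

namespace Pool.Agent.Work.MP_3d425c_gt.Fs
open Set MulAction Relation Pool.Agent.Work.MP_3d425c_gt.Md Pool.Agent.Work.MP_3d425c_gt.Bg
  Pool.Agent.Work.MP_3d425c_gt.Bq Pool.Agent.Work.MP_3d425c_gt.Cw
open scoped Pointwise

variable {G X0 X1 X2 X3 : Type} [Group G] [MulAction G X0] [MulAction G X1] [MulAction G X2]
  [MulAction G X3] {T : Tri G X0 X1 X2 X3} {A B D D' l l' : Set X0} {a b g h u : G}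
  {L om : Set (Set X0)} {J : Subgroup G} {x : X0}

theorem fm_ne (hM : Mfd T) (k : Can T A) : A.Nonempty :=
  nonempty_iff_ne_empty.2 fun e => k.big hM (e ▸ SmP.empty)

theorem fm_anti (S : Std T) (k : Can T A) (k' : Can T B) (d : st T A ⊆ B) : st T B ⊆ A :=
  k.st_st S ▸ (k.star S).st_anti S k' d

theorem fm_anti' (S : Std T) (k : Can T A) (k' : Can T B) (d : A ⊆ st T B) : B ⊆ st T A :=
  k'.st_st S ▸ k.st_anti S (k'.star S) d

/-- a wall and the wall on its other side do not lie in one wall -/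
theorem fm_both (S : Std T) (k : Can T A) (k' : Can T B) (d : A ⊆ B) (e : st T A ⊆ B) : False :=
  let ⟨_, hy⟩ := fm_ne S.mfd (k'.star S)
  k'.st_sub S hy (d (fm_anti S k k' e hy))

theorem fm_nst_st (S : Std T) (k : Can T A) (k' : Can T B) (n : Nst T A (st T B)) :
    Nst T A B := by
  rcases n with n | n | n | n
  · exact .inr (.inl n)
  · exact .inl (k'.st_st S ▸ n)
  · exact .inr (.inr (.inr (k.st_st S ▸ fm_anti' S (k.star S) k' n)))
  · exact .inr (.inr (.inl (fm_anti S k' k n)))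

theorem fm_nst_st' (S : Std T) (k : Can T A) (k' : Can T B) (n : Nst T A B) :
    Nst T A (st T B) := fm_nst_st S k (k'.star S) (by rwa [k'.st_st S])

theorem fm_st_nst (S : Std T) (k : Can T A) (k' : Can T B) (n : Nst T A B) :
    Nst T (st T A) B := by
  rcases n with n | n | n | n
  · exact .inr (.inr (.inl ((k.st_st S).symm ▸ n)))
  · exact .inr (.inr (.inr (fm_anti' S k k' n)))
  · exact .inl n
  · exact .inr (.inl (k'.st_anti S k n))

/-- the side passes to a crossing wall -/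
theorem fm_step (S : Std T) (k : Can T D) (hl : Can T l) (hl' : Can T l') (c : ¬ Nst T l l')
    (n : Nst T D l') (p : D ⊆ l ∨ D ⊆ st T l) : D ⊆ l' ∨ D ⊆ st T l' := by
  rcases n with n | n | n | n
  · exact .inl n
  · exact .inr n
  · have q := fm_anti S k hl' n
    rcases p with p | p
    · exact (c (.inr (.inr (.inl (fm_anti S hl' hl (q.trans p)))))).elim
    · exact (c (.inl (hl'.st_st S ▸ fm_anti' S (hl'.star S) hl (q.trans p)))).elim
  · rcases p with p | p
    · exact (c (.inr (.inr (.inr (n.trans p))))).elim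
    · exact (c (.inr (.inl (fm_anti' S hl' hl (n.trans p))))).elim

theorem fm_all (S : Std T) (hL : Stage T h L) (k : Can T D) (n : ∀ l ∈ L, Nst T D l) (m : l ∈ L)
    (p : D ⊆ l ∨ D ⊆ st T l) : ∀ l' ∈ L, D ⊆ l' ∨ D ⊆ st T l' := fun l' m' => by
  have key : ∀ c, ReflTransGen (fun A B => B ∈ L ∧ ¬ Nst T A B) l c →
      c ∈ L ∧ (D ⊆ c ∨ D ⊆ st T c) := fun c r => by
    induction r with
    | refl => exact ⟨m, p⟩
    | tail _ s ih =>
      exact ⟨s.1, fm_step S k (hL.can _ ih.1) (hL.can _ s.1) s.2 (n _ s.1) ih.2⟩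
  exact (key l' (hL.con l m l' m')).2

/-- a wall that is nested with all members has a side that contains no member -/
theorem fm_ori (S : Std T) (hL : Stage T h L) (k : Can T B) (n : ∀ l ∈ L, Nst T B l) :
    (∀ l ∈ L, B ⊆ l ∨ B ⊆ st T l) ∨ ∀ l ∈ L, st T B ⊆ l ∨ st T B ⊆ st T l := by
  obtain ⟨l, m⟩ := hL.nonempty
  have n' : ∀ l ∈ L, Nst T (st T B) l := fun l m => fm_st_nst S k (hL.can l m) (n l m)
  rcases n l m with q | q | q | q
  · exact .inl (fm_all S hL k n m (.inl q))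
  · exact .inl (fm_all S hL k n m (.inr q))
  · exact .inr (fm_all S hL (k.star S) n' m (.inl q))
  · exact .inr (fm_all S hL (k.star S) n' m (.inr ((hL.can l m).st_anti S k q)))

theorem fm_z2_pow (z : Z2 a b) {n : ℕ} (n0 : 0 < n) : Z2 a (b ^ n) := by
  refine ⟨z.1.pow_right n, fun i j e => ?_⟩
  rw [← zpow_natCast, ← zpow_mul] at e
  obtain ⟨p, q⟩ := z.2 _ _ e
  exact ⟨p, (mul_eq_zero.1 q).resolve_left (by omega)⟩

theorem fm_z2_inv (z : Z2 a⁻¹ b) : Z2 a b := by
  refine ⟨by simpa using z.1.inv_left, fun i j e => ?_⟩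
  obtain ⟨p, q⟩ := z.2 (-i) j (by rwa [inv_zpow', neg_neg])
  exact ⟨by omega, q⟩

/-- a lattice does not fix both a member and a wall that is nested with all members -/
theorem fm_cr (S : Std T) (hL : Stage T h L) (k : Can T D) (n : ∀ l ∈ L, Nst T D l)
    (z : Z2 h u) (f : h • D = D) (f' : u • D = D) (m : l ∈ L) : u • l ≠ l := fun e => by
  obtain ⟨l', m', c⟩ := hL.crs l m
  rcases (hL.can l m).comm S k z (hL.fix l m) e f f' with q | q
  · exact c (q ▸ n l' m')
  · exact c ((hL.can l m).st_st S ▸ fm_st_nst S ((hL.can l m).star S) (hL.can l' m')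
      (q ▸ n l' m'))

/-- a wall that is moved over itself is fixed if its translates miss a point -/
theorem fm_up (hM : Mfd T) (k : Can T D) (d : D ⊆ g • D) {y : X0} (o : ∀ n : ℕ, y ∉ g ^ n • D) :
    g • D = D := by
  by_contra ne
  obtain ⟨x, hx⟩ := fm_ne hM k
  have mono : StrictMono fun n : ℕ => g ^ n • D := strictMono_nat_of_lt_succ fun n => by
    rw [pow_succ, mul_smul]
    exact ssubset_iff_subset_ne.2 ⟨smul_set_mono d, fun q => ne (smul_left_cancel _ q).symm⟩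
  have fin := un_sep hM (F := orbit G D)
    ⟨{D}, finite_singleton _, fun _ ⟨p, e⟩ => ⟨D, rfl, p, trivial, e.symm⟩⟩
    (fun _ ⟨p, e⟩ => e ▸ (k.smul p).fin) x y
  refine infinite_of_injective_forall_mem mono.injective (fun n => ?_) fin
  refine ⟨⟨_, rfl⟩, fun q => ?_⟩
  have := mono.monotone (Nat.zero_le n)
  exact o n (q.1 (this (by simpa using hx)))

/-- an element of a lattice of rank two is part of a basis of a sublattice -/
theorem fm_rk {P : Subgroup G} (i : P ≃* Multiplicative (ℤ × ℤ)) (m : h ∈ P) (ne : h ≠ 1) :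
    ∃ u ∈ P, Z2 h u := by
  obtain ⟨⟨p, q⟩, e⟩ : ∃ c : ℤ × ℤ, i ⟨h, m⟩ = Multiplicative.ofAdd c := ⟨_, rfl⟩
  refine ⟨i.symm (.ofAdd (-q, p)), Subtype.property _, ?_, fun s t k => ?_⟩
  · have : (⟨h, m⟩ : P) * i.symm (.ofAdd (-q, p)) = i.symm (.ofAdd (-q, p)) * ⟨h, m⟩ :=
      i.injective (by rw [map_mul, map_mul, mul_comm])
    exact congrArg Subtype.val this
  · have k' : (⟨h, m⟩ : P) ^ s * i.symm (.ofAdd (-q, p)) ^ t = 1 := Subtype.ext k
    have k2 := congrArg (fun x => Multiplicative.toAdd (i x)) k'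
    simp only [map_mul, map_zpow, e, MulEquiv.apply_symm_apply, map_one, toAdd_mul, toAdd_zpow,
      toAdd_ofAdd, toAdd_one, Prod.ext_iff, Prod.fst_add, Prod.snd_add, Prod.smul_fst,
      Prod.smul_snd, smul_eq_mul, Prod.fst_zero, Prod.snd_zero] at k2
    have n : p * p + q * q ≠ 0 := fun n => ne (by
      have p0 : p = 0 := by nlinarith [mul_self_nonneg p, mul_self_nonneg q]
      have q0 : q = 0 := by nlinarith [mul_self_nonneg p, mul_self_nonneg q]
      rw [p0, q0] at e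
      exact congrArg Subtype.val (i.injective (e.trans (map_one i).symm)))
    exact ⟨(mul_eq_zero.1 (show s * (p * p + q * q) = 0 by
        linear_combination p * k2.1 + q * k2.2)).resolve_right n,
      (mul_eq_zero.1 (show t * (p * p + q * q) = 0 by
        linear_combination p * k2.2 - q * k2.1)).resolve_right n⟩

variable (T) in
/-- a choice of sides of the members of `L` with a common point, kept by the group `J` -/
structure Cell (h : G) (L om : Set (Set X0)) (J : Subgroup G) (x : X0) : Prop where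
  sub : om ⊆ L
  tot : ∀ l ∈ L, l ∈ om ∨ st T l ∈ om
  pt : ∀ l ∈ om, x ∈ l
  mem : h ∈ J
  inv : ∀ g ∈ J, ∀ l ∈ om, g • l ∈ om
  nrm : ∀ g ∈ J, g * h * g⁻¹ = h ∨ g * h * g⁻¹ = h⁻¹

variable (T) in
/-- the walls inside the cell that are fixed by a lattice of `J` through `h` -/
def Fam (h : G) (om : Set (Set X0)) (J : Subgroup G) : Set (Set X0) :=
  {D | Can T D ∧ h • D = D ∧ (∃ u ∈ J, Z2 h u ∧ u • D = D) ∧ ∀ l ∈ om, D ⊆ l}

theorem Fam.can (k : D ∈ Fam T h om J) : Can T D := k.1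

theorem Fam.fix (k : D ∈ Fam T h om J) : h • D = D := k.2.1

theorem Fam.rk (k : D ∈ Fam T h om J) : ∃ u ∈ J, Z2 h u ∧ u • D = D := k.2.2.1

theorem Fam.ins (k : D ∈ Fam T h om J) (m : l ∈ om) : D ⊆ l := k.2.2.2 l m

namespace Cell
variable (C : Cell T h L om J x)
include C

theorem pp_le (m : u ∈ J) : pp h u ≤ J := (Subgroup.closure_le _).2 (by
  rintro _ (rfl | rfl)
  exacts [C.mem, m])

theorem act (m : g ∈ J) (k : D ∈ Fam T h om J) : g • D ∈ Fam T h om J := by
  obtain ⟨c, f, ⟨u, hu, z, f'⟩, i⟩ := k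
  refine ⟨c.smul g, ?_, ⟨g * u * g⁻¹, mul_mem (mul_mem m hu) (inv_mem m), ?_, ?_⟩,
    fun l hl => ?_⟩
  · have : (g⁻¹ * h * g⁻¹⁻¹) • D = D := by
      rcases C.nrm g⁻¹ (inv_mem m) with e | e
      · rw [e, f]
      · rw [e, inv_smul_eq_iff, f]
    rwa [inv_inv, mul_smul, mul_smul, inv_smul_eq_iff] at this
  · have z' := cn_z2 z g
    rcases C.nrm g m with e | e
    · rwa [e] at z'
    · exact fm_z2_inv (by rwa [e] at z')
  · rw [mul_smul, mul_smul, inv_smul_smul, f']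
  · exact smul_set_subset_iff_subset_inv_smul_set.2 (i _ (C.inv _ (inv_mem m) l hl))

variable (S : Std T) (hL : Stage T h L)
include S hL

omit S in
theorem nonempty : om.Nonempty :=
  let ⟨l, m⟩ := hL.nonempty
  (C.tot l m).elim (fun k => ⟨_, k⟩) fun k => ⟨_, k⟩

theorem out (k : D ∈ Fam T h om J) (m : l ∈ om) : st T l ⊆ Dᶜ :=
  ((hL.can l (C.sub m)).st_sub S).trans (compl_subset_compl.2 (Fam.ins k m))

theorem all (k : Can T B) (n : ∀ l ∈ om, Nst T B l) : ∀ l ∈ L, Nst T B l := fun l m =>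
  (C.tot l m).elim (n l) fun q => fm_nst_st S k (hL.can l m) (n _ q)

theorem nst (k : D ∈ Fam T h om J) : ∀ l ∈ L, Nst T D l :=
  C.all S hL (Fam.can k) fun _ m => .inl (Fam.ins k m)

omit S hL in
theorem orb (m : g ∈ J) (hl : l ∈ om) : g • x ∈ l :=
  mem_inv_smul_set_iff.1 (C.pt _ (C.inv _ (inv_mem m) l hl))

theorem cov (m : u ∈ J) (z : Z2 h u) : ∃ D ∈ Fam T h om J, u • D = D := by
  have key : ∀ D, Can T D → h • D = D → u • D = D → (∀ l ∈ L, Nst T D l) →
      (∀ l ∈ L, D ⊆ l ∨ D ⊆ st T l) → ∃ D ∈ Fam T h om J, u • D = D := fun D k f f' n o => by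
    refine ⟨D, ⟨k, f, ⟨u, m, z, f'⟩, fun l hl => (o l (C.sub hl)).resolve_right fun d => ?_⟩, f'⟩
    have cl := hL.can l (C.sub hl)
    have le : pp h u ≤ stabilizer G D := (Subgroup.closure_le _).2 (by
      rintro _ (rfl | rfl)
      exacts [f, f'])
    have s := cn_nr S.mfd (A := l) (B := D) (D := {y | ∃ q ∈ pp h u, y = q • x})
      (fun y a b => cl.st_sub S (d b) a) (fm_ne S.mfd k) (fun p hp => cn_inv_st D p (le hp))
      cl.fin ⟨{x}, finite_singleton _, fun y ⟨q, hq, e⟩ => ⟨x, rfl, q, hq, e⟩⟩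
    have r := cn_orb T.free (S := {y | ∃ q ∈ pp h u, y = q • x}) (Q := pp h u)
      (s.mono fun y hy => ⟨by
        obtain ⟨q, hq, rfl⟩ := hy
        exact C.orb (C.pp_le m hq) hl, hy⟩)
      (fun p hp y => ⟨fun ⟨q, hq, e⟩ => ⟨p⁻¹ * q, mul_mem (inv_mem hp) hq, by
        rw [mul_smul, ← e, inv_smul_smul]⟩, fun ⟨q, hq, e⟩ => ⟨p * q, mul_mem hp hq, by
        rw [mul_smul, ← e]⟩⟩) ⟨x, 1, one_mem _, (one_smul _ _).symm⟩
    obtain ⟨j, j0, -, hj⟩ := Subgroup.exists_pow_mem_of_relIndex_ne_zero r (cn_mb h u)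
    exact fm_cr S hL k n (fm_z2_pow z j0) f (le (pow_mem (cn_mb h u) j)) (C.sub hl) hj.1.1
  obtain ⟨B, k, f, f'⟩ := exists_can S z
  have n := C.all S hL k fun l hl => x0 S k (hL.can l (C.sub hl)) z f f' x
    (.inl fun q hq => C.orb (C.pp_le m hq) hl)
  rcases fm_ori S hL k n with o | o
  · exact key B k f f' n o
  · exact key _ (k.star S) (cn_st_le S k f) (cn_st_le S k f')
      (fun l m => fm_st_nst S k (hL.can l m) (n l m)) o

theorem two (k : D ∈ Fam T h om J) (k' : D' ∈ Fam T h om J) :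
    D ⊆ D' ∨ D' ⊆ D ∨ D ⊆ st T D' := by
  obtain ⟨l, hl⟩ := C.nonempty hL
  have cl := hL.can l (C.sub hl)
  obtain ⟨y, hy⟩ := fm_ne S.mfd (cl.star S)
  obtain ⟨u, hu, z, f⟩ := Fam.rk k
  rcases x0 S (Fam.can k) (Fam.can k') z (Fam.fix k) f y (.inr fun q hq a =>
    C.out S hL (C.act (inv_mem (C.pp_le hu hq)) k') hl hy (mem_inv_smul_set_iff.2 a))
    with n | n | n | n
  · exact .inl n
  · exact .inr (.inr n)
  · exact (fm_both S (Fam.can k) cl (Fam.ins k hl) (n.trans (Fam.ins k' hl))).elim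
  · exact .inr (.inl n)

theorem up (m : g ∈ J) (k : D ∈ Fam T h om J) (d : D ⊆ g • D) : g • D = D := by
  obtain ⟨l, hl⟩ := C.nonempty hL
  obtain ⟨y, hy⟩ := fm_ne S.mfd ((hL.can l (C.sub hl)).star S)
  exact fm_up S.mfd (Fam.can k) d (y := y) fun n => C.out S hL (C.act (pow_mem m n) k) hl hy

theorem eq_of_sub (k : D ∈ Fam T h om J) (k' : D' ∈ Fam T h om J) (d : D ⊆ D') : D = D' := by
  obtain ⟨u, hu, z, f⟩ := Fam.rk k
  obtain ⟨y, hy⟩ := fm_ne S.mfd (Fam.can k)
  have f' : u • D' = D' := by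
    rcases C.two S hL (C.act hu k') k' with n | n | n
    · exact (inv_smul_eq_iff.1 (C.up S hL (inv_mem hu) k'
        (smul_set_subset_iff_subset_inv_smul_set.1 n))).symm
    · exact C.up S hL hu k' n
    · exact ((Fam.can k').st_sub S (n (smul_set_mono d (f.symm ▸ hy))) (d hy)).elim
  rcases (Fam.can k).comm S (Fam.can k') z (Fam.fix k) f (Fam.fix k') f' with e | e
  · exact e.symm
  · exact ((Fam.can k).st_sub S (e ▸ d hy) hy).elim

theorem dis (k : D ∈ Fam T h om J) (k' : D' ∈ Fam T h om J) :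
    D = D' ∨ (D ⊆ D'ᶜ ∧ D ≠ st T D') := by
  rcases C.two S hL k k' with n | n | n
  · exact .inl (C.eq_of_sub S hL k k' n)
  · exact .inl (C.eq_of_sub S hL k' k n).symm
  · obtain ⟨l, hl⟩ := C.nonempty hL
    exact .inr ⟨n.trans ((Fam.can k').st_sub S), fun e =>
      fm_both S (Fam.can k') (hL.can l (C.sub hl)) (Fam.ins k' hl) (e ▸ Fam.ins k hl)⟩

/-- an element of the group of the cell that fixes a member and commutes with `h` depends on `h` -/
theorem dep (m : u ∈ J) (hl : l ∈ L) (f : u • l = l) : ¬ Z2 h u := fun z =>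
  let ⟨_, k, f'⟩ := C.cov S hL m z
  fm_cr S hL (Fam.can k) (C.nst S hL k) z (Fam.fix k) f' hl f

/-- no member is finite modulo the group of the cell -/
theorem big (hl : l ∈ L) : ¬ SmP J l := fun s => by
  have cl := hL.can l hl
  obtain ⟨i⟩ := cl.z2 S
  obtain ⟨u, hu, z⟩ := fm_rk i (hL.fix l hl) hL.ne
  obtain ⟨j, j0, -, hj⟩ := Subgroup.exists_pow_mem_of_relIndex_ne_zero
    (cn_orb T.free s (cn_inv_st l) (fm_ne S.mfd cl)) hu
  exact C.dep S hL hj.1 hl hj.2 (fm_z2_pow z j0)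

end Cell

/-- the cell of a wall that lies on one side of every member -/
theorem cell_of (hM : Mfd T) (hL : Stage T h L) {W : Set X0} (hW : Can T W)
    (sub : ∀ l ∈ L, W ⊆ l ∨ W ⊆ st T l) :
    ∃ x ∈ W, Cell T h L {l ∈ L | W ⊆ l}
      (stabilizer G L ⊓ stabilizer G {l ∈ L | W ⊆ l}) x := by
  obtain ⟨x, hx⟩ := fm_ne hM hW
  have fx : ∀ M : Set (Set X0), M ⊆ L → h • M = M := fun M k => by
    ext l
    exact ⟨fun ⟨c, m, e⟩ => ((hL.fix c (k m)).symm.trans e : c = l) ▸ m,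
      fun m => ⟨l, m, hL.fix l (k m)⟩⟩
  refine ⟨x, hx, sep_subset _ _, fun l m => (sub l m).imp (fun k => ⟨m, k⟩)
    fun k => ⟨hL.star l m, k⟩, fun l m => m.2 hx, ⟨fx _ Subset.rfl, fx _ (sep_subset _ _)⟩,
    fun g m l k => ?_, fun g m => hL.nrm g m.1⟩
  exact (mem_stabilizer_iff.1 m.2) ▸ smul_mem_smul_set k

end Pool.Agent.Work.MP_3d425c_gt.Fs
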