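import Pool.Agent.Work.MP_3d425c_gt.Fs.Stage
import Pool.Agent.Work.MP_3d425c_gt.Fr.Max

/-! An uncrossed wall between a crossed wall and a wall with another direction. -/

namespace Pool.Agent.Work.MP_3d425c_gt.Fs
open Set MulAction Relation Pool.Agent.Work.MP_3d425c_gt.Md Pool.Agent.Work.MP_3d425c_gt.Bg
  Pool.Agent.Work.MP_3d425c_gt.Bq Pool.Agent.Work.MP_3d425c_gt.Cw
open scoped Pointwise

variable {G X0 X1 X2 X3 : Type} [Group G] [MulAction G X0] [MulAction G X1] [MulAction G X2]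
  [MulAction G X3] {T : Tri G X0 X1 X2 X3} {A B D W B₀ B₁ : Set X0} {g h : G}
  {L : Set (Set X0)}

/-- an element that keeps the first wall vertical conjugates the fibre into its cyclic group -/
theorem Fib.cj (S : Std T) (F : Fib T h B₀ B₁) (f : h • g • B₀ = g • B₀) :
    g⁻¹ * h * g ∈ Subgroup.zpowers h := by
  have k := F.vert S (F.c0.smul g) f (F.c1.smul g)
    fun n => F.cr ((S.cf.nst_smul_iff g F.c0 F.c1).1 n)
  refine (F.gen _).1 ⟨?_, ?_⟩
  · rw [mul_smul, mul_smul, f, inv_smul_smul]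
  · rw [mul_smul, mul_smul, k, inv_smul_smul]

theorem Fib.pm (S : Std T) (F : Fib T h B₀ B₁) (f : h • g • B₀ = g • B₀)
    (f' : h • g⁻¹ • B₀ = g⁻¹ • B₀) : g * h * g⁻¹ = h ∨ g * h * g⁻¹ = h⁻¹ := by
  obtain ⟨i, hi⟩ := F.cj S f
  obtain ⟨j, hj⟩ := F.cj S f'
  simp only [inv_inv] at hi hj
  have e : h ^ (j * i) = h ^ (1 : ℤ) := by
    rw [zpow_mul, hj, conj_zpow, hi, zpow_one]
    group
  have := injective_zpow_iff_not_isOfFinOrder.2 (S.tf h F.ne) e
  rcases Int.eq_one_or_neg_one_of_mul_eq_one this with rfl | rfl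
  · exact .inl (by rw [← hj, zpow_one])
  · exact .inr (by rw [← hj, zpow_neg_one])

theorem Fib.stage (S : Std T) (F : Fib T h B₀ B₁) (C : Cls T L) (m : B₀ ∈ L) : Stage T h L := by
  have f0 : h • B₀ = B₀ := ((F.gen h).2 (Subgroup.mem_zpowers h)).1
  have fix : ∀ l ∈ L, h • l = l := fun l hl => by
    induction C.conn _ m _ hl with
    | refl => exact f0
    | tail _ k ih =>
      rcases k.2.2 with n | rfl
      · exact F.vert S (C.can _ k.1) (ih k.1) (C.can _ k.2.1) n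
      · rw [← (C.can _ k.1).st_smul S, ih k.1]
  have mem : ∀ g ∈ stabilizer G L, g • B₀ ∈ L := fun g hg => by
    rw [← mem_stabilizer_iff.1 hg]
    exact smul_mem_smul_set m
  refine ⟨F.ne, ⟨_, m⟩, C.can, fix, C.star, C.crs, fun l hl l' hl' => ?_, C.fin, fun g hg =>
    F.pm S (fix _ (mem g hg)) (fix _ (mem _ (inv_mem hg))),
    fun l hl g hg => C.blk g l hl ((mem_stabilizer_iff.1 hg).symm ▸ hl)⟩
  induction C.conn _ hl _ hl' with
  | refl => exact .refl
  | @tail p q _ k ih =>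
    rcases k.2.2 with n | rfl
    · exact (ih k.1).tail ⟨k.2.1, n⟩
    · obtain ⟨r, hr, n⟩ := C.crs _ k.1
      exact ((ih k.1).tail ⟨hr, n⟩).tail ⟨k.2.1, fun e => n ((S.cf.nst_st_iff (C.can _ k.1)
        (C.can _ hr)).1 (S.cf.nst_symm (C.can _ hr) (C.can _ k.2.1) e))⟩

/-- a wall that is nested with the family has a side that lies on one side of each member -/
theorem Stage.orient (S : Std T) (hL : Stage T h L) (hW : Can T W) (n : ∀ l ∈ L, Nst T W l) :
    (∀ l ∈ L, W ⊆ l ∨ W ⊆ st T l) ∨ ∀ l ∈ L, st T W ⊆ l ∨ st T W ⊆ st T l := by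
  have key : ∀ U, Can T U → (∀ l ∈ L, Nst T U l) → ∀ p ∈ L, (U ⊆ p ∨ U ⊆ st T p) →
      ∀ q ∈ L, U ⊆ q ∨ U ⊆ st T q := fun U hU n p hp s q hq => by
    induction hL.con _ hp _ hq with
    | refl => exact s
    | @tail a b r k ih =>
      have ha : a ∈ L := by
        rcases r.cases_tail with e | ⟨_, -, e⟩
        exacts [e ▸ hp, e.1]
      have ca := hL.can _ ha
      have cb := hL.can _ k.1
      have t : ∀ {c}, Can T c → U ⊆ c → st T c ⊆ st T U := fun hc e => hU.st_anti S hc e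
      rcases n _ k.1 with e | e | e | e
      · exact .inl e
      · exact .inr e
      · refine (k.2 ?_).elim
        rcases ih ha with d | d
        · exact .inr (.inr (.inl ((t ca d).trans e)))
        · exact .inl (ca.st_st S ▸ (t (ca.star S) d).trans e)
      · refine (k.2 ?_).elim
        rcases ih ha with d | d
        · exact .inr (.inr (.inr (e.trans d)))
        · exact .inr (.inl (ca.st_st S ▸ cb.st_anti S (ca.star S) (e.trans d)))
  obtain ⟨p, hp⟩ := hL.nonempty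
  have n' : ∀ l ∈ L, Nst T (st T W) l := fun l hl => S.cf.nst_st hW (hL.can l hl) (n l hl)
  rcases n p hp with e | e | e | e
  · exact .inl (key W hW n p hp (.inl e))
  · exact .inl (key W hW n p hp (.inr e))
  · exact .inr (key _ (hW.star S) n' p hp (.inl e))
  · exact .inr (key _ (hW.star S) n' p hp (.inr ((hL.can p hp).st_anti S hW e)))

theorem front (S : Sd T) (F : Fib T h B₀ B₁) (hW : Can T W) (nv : h • W ≠ W) :
    ∃ D, Unc T D ∧ h • D = D ∧ (W ⊆ D ∨ st T W ⊆ D) ∧ (D ⊆ B₀ ∨ D ⊆ st T B₀) := by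
  obtain ⟨L, C, m, mx⟩ := S.std.cf.exists_cls S.std.mfd S.bound F.c0 fun u => F.cr (u.2 _ F.c1)
  have hL := F.stage S.std C m
  have key : ∀ U, Can T U → (∀ l ∈ L, U ⊆ l ∨ U ⊆ st T l) →
      ∃ D, Unc T D ∧ h • D = D ∧ U ⊆ D ∧ (D ⊆ B₀ ∨ D ⊆ st T B₀) := fun U hU s => by
    obtain ⟨D, d⟩ := stage S hL hU s
    have k : ∀ l ∈ L, D ⊆ l ∨ D ⊆ st T l := fun l hl =>
      (s l hl).imp (d.ins l hl) (d.ins _ (hL.star l hl))
    refine ⟨D, mx D d.can (fun l hl => (k l hl).imp_right .inl) fun B hB n => .inr ?_, d.fix,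
      d.sub, k _ m⟩
    by_contra c
    exact n (S.std.cf.nst_symm hB d.can (d.nst B hB fun l hl => by_contra fun q => c ⟨l, hl, q⟩))
  rcases hL.orient S.std hW fun l hl => by_contra fun n => nv (F.vert S.std (hL.can l hl)
    (hL.fix l hl) hW fun q => n (S.std.cf.nst_symm (hL.can l hl) hW q)) with s | s
  · obtain ⟨D, a, b, c, d⟩ := key W hW s
    exact ⟨D, a, b, .inl c, d⟩
  · obtain ⟨D, a, b, c, d⟩ := key _ (hW.star S.std) s
    exact ⟨D, a, b, .inr c, d⟩

end Pool.Agent.Work.MP_3d425c_gt.Fs
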