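import Pool.Agent.Work.MP_3d425c_gt.Jw.WallEx
import Pool.Agent.Work.MP_3d425c_gt.Bq.Zb

/-! One end modulo a locally cyclic group. -/

namespace Pool.Agent.Work.MP_3d425c_gt.Fs
open Set Pool.Agent.Work.MP_3d425c_gt.Md Pool.Agent.Work.MP_3d425c_gt.Bg
  Pool.Agent.Work.MP_3d425c_gt.Bq Pool.Agent.Work.MP_3d425c_gt.Jw

variable {G X0 X1 X2 X3 : Type} [Group G] [MulAction G X0] [MulAction G X1] [MulAction G X2]
  [MulAction G X3] {T : Tri G X0 X1 X2 X3}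

theorem lc_glue (hM : Mfd T) {ι : Type*} {A : Set X0} {s : ι → X0 → ℝ}
    (h : ∀ e, ∃ w, s w (T.d1 e 0) - s w (T.d1 e 1) = wz T A e ∧
      ∀ w', w' ≠ w → s w' (T.d1 e 0) - s w' (T.d1 e 1) = 0) {x y : X0} (hx : ∀ w, s w x = 0)
    (hy : ∀ w, s w y = 0) : wi A x = wi A y := by
  classical
  obtain ⟨R, hR⟩ : ∃ R : Set X0, ∀ b, b ∈ R ↔ ∃ W : Finset ι, ∀ W', W ⊆ W' →
    wi A x - wi A b = -∑ w ∈ W', s w b := ⟨{b | _}, fun _ => Iff.rfl⟩
  have e : ∀ e, ∃ w, ∀ W' : Finset ι, w ∈ W' → wi A (T.d1 e 0) - wi A (T.d1 e 1) =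
      ∑ w ∈ W', s w (T.d1 e 0) - ∑ w ∈ W', s w (T.d1 e 1) := fun e => by
    obtain ⟨w, a, b⟩ := h e
    refine ⟨w, fun W' k => ?_⟩
    rw [← Finset.sum_sub_distrib, Finset.sum_eq_single_of_mem w k fun c _ d => b c d, a, wz]
  have c := const_of hM (t := wi R) (fun ε => wi_congr (by
    obtain ⟨w, k⟩ := e ε
    rw [hR, hR]
    constructor <;> rintro ⟨W, a⟩ <;> refine ⟨insert w W, fun W' b => ?_⟩ <;>
      linarith [a W' ((Finset.subset_insert _ _).trans b), k W' (b (Finset.mem_insert_self _ _))]))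
    x y
  rw [wi_pos ((hR x).2 ⟨∅, fun W' _ => by simp [hx]⟩)] at c
  have d : y ∈ R := by_contra fun n => by rw [wi_neg n] at c; exact one_ne_zero c
  obtain ⟨W, a⟩ := (hR y).1 d
  simpa [hy, sub_eq_zero] using a W (Finset.Subset.refl _)

/-- a set with small coboundary modulo a locally cyclic group is small or has small complement -/
theorem lc (hM : Mfd T) (tf : ∀ a : G, a ≠ 1 → ¬ IsOfFinOrder a) {J : Subgroup G}
    (cy : ∀ E : Subgroup G, E ≤ J → E.FG → IsCyclic E) {Z : Set X0}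
    (inv : ∀ p ∈ J, ∀ x, p • x ∈ Z ↔ x ∈ Z) (fin : SmP J (cut T Z)) : SmP J Z ∨ SmP J Zᶜ := by
  classical
  obtain ⟨K, hK, hc⟩ := fin
  let F : Set G := {j | j ∈ J ∧ ∃ k ∈ K, ∃ k' ∈ K, ∃ f i i', T.d2 f i = k ∧ T.d2 f i' = j • k'}
  have hF : F.Finite := by
    refine (hK.biUnion fun k _ => hK.biUnion fun k' _ => finite_iUnion fun i : Fin 3 =>
      finite_iUnion fun i' : Fin 3 => (d1_f2 T i k).biUnion
        (t := fun f => {j : G | T.d2 f i' = j • k'}) fun f _ =>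
          Set.Subsingleton.finite fun a ha b hb => ?_).subset ?_
    · exact (inv_mul_eq_one.1 (T.free1 (b⁻¹ * a) k' (by
        rw [mul_smul, ← show T.d2 f i' = a • k' from ha, show T.d2 f i' = b • k' from hb,
          inv_smul_smul]))).symm
    · rintro j ⟨-, k, hk, k', hk', f, i, i', a, b⟩
      exact mem_biUnion hk (mem_biUnion hk' (mem_iUnion.2 ⟨i, mem_iUnion.2 ⟨i',
        mem_biUnion (show f ∈ {f | T.d2 f i = k} from a) b⟩⟩))
  obtain ⟨H, hH⟩ : ∃ H, H = Subgroup.closure F := ⟨_, rfl⟩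
  have le : H ≤ J := hH ▸ (Subgroup.closure_le _).2 fun j h => h.1
  have mF : ∀ j ∈ F, j ∈ H := fun j h => hH ▸ Subgroup.subset_closure h
  obtain ⟨c, hcy⟩ := (cy H le ((Subgroup.fg_iff H).2 ⟨F, hH.symm, hF⟩)).exists_zpow_surjective
  let C : Set X1 := {e | ∃ k ∈ K, ∃ p ∈ H, e = p • k}
  have Ci : ∀ p ∈ H, ∀ e ∈ C, p • e ∈ C := by
    rintro p hp _ ⟨k, hk, q, hq, rfl⟩
    exact ⟨k, hk, p * q, mul_mem hp hq, (mul_smul _ _ _).symm⟩
  have wi' : ∀ p ∈ J, ∀ e, wz T Z (p • e) = wz T Z e := fun p hp e => by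
    unfold wz
    rw [T.e1, T.e1, wi_congr (inv p hp _), wi_congr (inv p hp _)]
  have key : ∀ f i i', T.d2 f i ∈ C → wz T Z (T.d2 f i') ≠ 0 → T.d2 f i' ∈ C := by
    rintro f i i' ⟨k, hk, p, hp, e⟩ n
    obtain ⟨k', hk', j, hj, e'⟩ := hc _ (wz_ne n)
    have m := mF (p⁻¹ * j) ⟨mul_mem (inv_mem (le hp)) hj, k, hk, k', hk', p⁻¹ • f, i, i',
      by rw [T.e2, e, inv_smul_smul], by rw [T.e2, e', mul_smul]⟩
    exact ⟨k', hk', j, by simpa using mul_mem hp m, e'⟩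
  let z : X1 → ℝ := fun e => if e ∈ C then wz T Z e else 0
  obtain ⟨s, ⟨L, hL, s1⟩, s2⟩ := wang_tf hM tf c.1 (z := z) (fun f => by
      by_cases a : ∃ i, T.d2 f i ∈ C
      · obtain ⟨i, a⟩ := a
        have e : ∀ i', z (T.d2 f i') = wz T Z (T.d2 f i') := fun i' => by
          by_cases n : wz T Z (T.d2 f i') = 0
          · simp only [z, n, ite_self]
          · exact if_pos (key f i i' a n)
        rw [e, e, e, wz_coc]
      · have e : ∀ i', z (T.d2 f i') = 0 := fun i' => if_neg fun k => a ⟨i', k⟩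
        rw [e, e, e, add_zero])
    (fun e => if_congr ⟨fun k => by simpa using Ci _ (inv_mem c.2) _ k, Ci _ c.2 _⟩
      (wi' _ (le c.2) e) rfl)
    ⟨K, hK, fun e he => by
      obtain ⟨k, hk, p, hp, rfl⟩ : e ∈ C := by_contra fun n => he (if_neg n)
      obtain ⟨n, hn⟩ := hcy ⟨p, hp⟩
      exact ⟨k, hk, n, congrArg (· • k) (congrArg Subtype.val hn).symm⟩⟩
  by_contra n
  push Not at n
  have out : ∀ A : Set X0, ¬ SmP J A → ∃ x ∈ A, ∀ j ∈ J, s (j⁻¹ • x) = 0 := fun A h => by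
    by_contra m
    push Not at m
    refine h ⟨L, hL, fun x hx => ?_⟩
    obtain ⟨j, hj, k⟩ := m x hx
    obtain ⟨l, hl, i, e⟩ := s1 _ k
    exact ⟨l, hl, j * c.1 ^ i, mul_mem hj (zpow_mem (le c.2) i), by
      rw [mul_smul, ← e, smul_inv_smul]⟩
  obtain ⟨x, hx, x0⟩ := out _ n.1
  obtain ⟨y, hy, y0⟩ := out _ n.2
  have g := lc_glue hM (A := Z) (x := x) (y := y)
    (s := fun (q : J ⧸ H.subgroupOf J) v => s ((q.out : G)⁻¹ • v)) (fun e => ?_)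
    (fun q => x0 _ q.out.2) fun q => y0 _ q.out.2
  · rw [wi_pos hx, wi_neg hy] at g
    exact one_ne_zero g
  have d : ∀ q : J ⧸ H.subgroupOf J, s ((q.out : G)⁻¹ • T.d1 e 0) - s ((q.out : G)⁻¹ • T.d1 e 1) =
      z ((q.out : G)⁻¹ • e) := fun q => by rw [s2, T.e1, T.e1]
  simp only [d]
  by_cases a : wz T Z e = 0
  · have b : ∀ q : J ⧸ H.subgroupOf J, z ((q.out : G)⁻¹ • e) = 0 := fun q => by
      simp only [z, wi' _ (inv_mem q.out.2), a, ite_self]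
    exact ⟨QuotientGroup.mk 1, by rw [b, a], fun q _ => b q⟩
  obtain ⟨k, hk, j, hj, rfl⟩ := hc _ (wz_ne a)
  refine ⟨QuotientGroup.mk ⟨j, hj⟩, ?_, fun q hq => if_neg ?_⟩
  · obtain ⟨p, hp⟩ := QuotientGroup.mk_out_eq_mul (H.subgroupOf J) ⟨j, hj⟩
    refine (if_pos ⟨k, hk, (p.1.1)⁻¹, inv_mem p.2, ?_⟩).trans (wi' _ (inv_mem (Subtype.prop _)) _)
    rw [hp, Subgroup.coe_mul, mul_inv_rev, mul_smul, inv_smul_smul]
  · rintro ⟨k', hk', p, hp, e⟩
    obtain ⟨f, i, hf⟩ := hM.pure k'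
    have m := mF (p⁻¹ * ((q.out : G)⁻¹ * j)) ⟨mul_mem (inv_mem (le hp))
      (mul_mem (inv_mem q.out.2) hj), k', hk', k, hk, f, i, i, hf, by
        rw [hf, mul_smul, mul_smul, e, inv_smul_smul]⟩
    refine hq ((QuotientGroup.out_eq' q).symm.trans (QuotientGroup.eq.2 ?_))
    show (q.out : G)⁻¹ * j ∈ H
    simpa using mul_mem hp m

end Pool.Agent.Work.MP_3d425c_gt.Fs
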