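import Pool.Agent.Work.MP_3d425c_gt.Fs.Defs
import Pool.Agent.Work.MP_3d425c_gt.Cw.Tree
import Pool.Agent.Work.MP_3d425c_gt.Sv.Defs
import Pool.Agent.Work.MP_3d425c_gt.Fs.PPG
import Pool.Agent.Work.MP_3d425c_gt.Sv.Wall
import Pool.Agent.Work.MP_3d425c_gt.Cw.Mid

/-! A vertex with peripheral lattices and an element that fixes two edges has a fibre. -/

namespace Pool.Agent.Work.MP_3d425c_gt.Fs
open Set Subgroup MulAction Pool.Agent.Work.MP_3d425c_gt.Md Pool.Agent.Work.MP_3d425c_gt.Bg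
  Pool.Agent.Work.MP_3d425c_gt.Bq Pool.Agent.Work.MP_3d425c_gt.Cw
open scoped Pointwise

variable {G X0 X1 X2 X3 : Type} [Group G] [MulAction G X0] [MulAction G X1] [MulAction G X2]
  [MulAction G X3] {T : Tri G X0 X1 X2 X3} {V : Type} [MulAction G V] {Γ : SimpleGraph V} {v : V}

theorem s2_ray {Q : Subgroup G} (e : Q ≃* Multiplicative (ℤ × ℤ)) {h : G} (hh : h ∈ Q)
    (h1 : h ≠ 1) : ∃ s ∈ Q, Z2 h s := by
  obtain ⟨⟨i, j⟩, eh⟩ : ∃ x, e ⟨h, hh⟩ = .ofAdd x := ⟨_, (ofAdd_toAdd _).symm⟩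
  have k : ∀ x y m n : ℤ, h ^ m * (e.symm (.ofAdd (x, y))).1 ^ n = 1 →
      m * i + n * x = 0 ∧ m * j + n * y = 0 := fun x y m n q => by
    have := congrArg e (Subtype.ext q : ⟨h, hh⟩ ^ m * e.symm (.ofAdd (x, y)) ^ n = 1)
    rw [map_mul, map_zpow, map_zpow, eh, e.apply_symm_apply, map_one, ← ofAdd_zsmul,
      ← ofAdd_zsmul, ← ofAdd_add] at this
    exact Prod.ext_iff.1 (congrArg Multiplicative.toAdd this)
  by_cases i0 : i = 0
  · have j0 : j ≠ 0 := fun j0 => h1 (congrArg Subtype.val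
      (e.injective (show e ⟨h, hh⟩ = e 1 by rw [eh, i0, j0, map_one]; rfl)))
    refine ⟨_, (e.symm (.ofAdd (1, 0))).2, Kl.cm e hh (Subtype.property _), fun m n q => ?_⟩
    obtain ⟨a, b⟩ := k _ _ m n q
    exact ⟨by simpa [j0] using b, by simpa [i0] using a⟩
  · refine ⟨_, (e.symm (.ofAdd (0, 1))).2, Kl.cm e hh (Subtype.property _), fun m n q => ?_⟩
    obtain ⟨a, b⟩ := k _ _ m n q
    have m0 : m = 0 := by simpa [i0] using a
    exact ⟨m0, by simpa [m0] using b⟩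

theorem s2_gen {C : Subgroup G} (c : IsCyclic C) : ∃ h, C = zpowers h := by
  obtain ⟨q, hq⟩ := c.exists_generator
  refine ⟨q.1, le_antisymm (fun x hx => ?_) (zpowers_le_of_mem q.2)⟩
  obtain ⟨n, hn⟩ := hq ⟨x, hx⟩
  exact ⟨n, congrArg Subtype.val hn⟩

theorem s2_nc {C : Subgroup G} {a b : G} (z : Z2 a b) (ha : a ∈ C) (hb : b ∈ C) :
    ¬ IsCyclic C := fun c => by
  obtain ⟨h, rfl⟩ := s2_gen c
  obtain ⟨m, rfl⟩ := ha
  obtain ⟨n, rfl⟩ := hb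
  have := z.2 n (-m) (by group)
  exact pg_ne z (by simp [show m = 0 by omega])

theorem s2_swap {a b : G} (z : Z2 a b) : Z2 b a :=
  ⟨z.1.symm, fun m n e => (z.2 n m (by rwa [(z.1.zpow_zpow n m).eq])).symm⟩

/-- the statement on the tree -/
theorem s2_core (hM : Mfd T) (tf : ∀ a : G, a ≠ 1 → ¬ IsOfFinOrder a)
    (hd : ∀ E : Subgroup G, ¬ E.FiniteIndex → E.FG → Dual T E) (hT : Γ.IsTree)
    (act : ∀ (g : G) p q, Γ.Adj p q → Γ.Adj (g • p) (g • q))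
    (red : ∀ p q, Γ.Adj p q → ∃ g : G, g • p = p ∧ g • q ≠ q)
    (iso : ∀ w, Γ.Adj v w → Nonempty
      ((stabilizer G v ⊓ stabilizer G w : Subgroup G) ≃* Multiplicative (ℤ × ℤ)))
    (rk : ∀ w w', Γ.Adj v w → Γ.Adj v w' → w ≠ w' →
      IsCyclic ↥(stabilizer G v ⊓ stabilizer G w ⊓ stabilizer G w'))
    (cusp : ∀ a b : G, Z2 a b → a • v = v → b • v = v → ∃ w, Γ.Adj v w ∧ a • w = w ∧ b • w = w)
    (sq : ∀ w, Γ.Adj v w → ∀ a b g : G, Z2 a b → a ∈ stabilizer G v ⊓ stabilizer G w →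
      b ∈ stabilizer G v ⊓ stabilizer G w → Commute g a → Commute g b → (g * g) • w = w)
    (s : S2 G Γ v) : Sv.Sei G Γ v := by
  obtain ⟨a, w, w', a1, av, ad, ad', ne, aw, aw'⟩ := s
  obtain ⟨h, hh⟩ := s2_gen (rk w w' ad ad' ne)
  have hm : h ∈ stabilizer G v ⊓ stabilizer G w ⊓ stabilizer G w' := hh.ge (mem_zpowers h)
  have h1 : h ≠ 1 := fun e => a1 (by
    have : a ∈ zpowers h := hh.le ⟨⟨av, aw⟩, aw'⟩
    rwa [e, zpowers_one_eq_bot] at this)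
  obtain ⟨s, hs, zs⟩ := s2_ray (iso w ad).some hm.1 h1
  obtain ⟨t, ht, zt⟩ := s2_ray (iso w' ad').some ⟨hm.1.1, hm.2⟩ h1
  have le : closure {h, s, t} ≤ stabilizer G v := (closure_le _).2 (by
    rintro _ (rfl | rfl | rfl)
    exacts [hm.1.1, hs.1, ht.1])
  have adj : ∀ g : G, g • v = v → ∀ u, Γ.Adj v u → Γ.Adj v (g • u) := fun g e u k => by
    simpa only [e] using act g _ _ k
  have cen := pg_cen zs.1 zt.1
  have mh : h ∈ closure {h, s, t} := subset_closure (.inl rfl)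
  by_cases fi : ((closure {h, s, t}).subgroupOf (stabilizer G v)).FiniteIndex
  swap
  · refine (ne (ppg' (p := fun u => Γ.Adj v u ∧ h • u = u) hM tf rfl zs zt
      (fun g hg u k => ⟨adj g (le hg) u k.1, by rw [← mul_smul, (cen g hg).eq, mul_smul, k.2]⟩)
      (fun u k => ⟨_, iso u k.1, ⟨hm.1.1, k.2⟩, fun x hx e => ⟨le hx, e⟩⟩)
      (fun x y p q n u hu e f z => s2_nc (C := stabilizer G v ⊓ stabilizer G x ⊓ stabilizer G y) z
        ⟨⟨hm.1.1, p.2⟩, q.2⟩ ⟨⟨le hu, e⟩, f⟩ (rk x y p.1 q.1 n))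
      (fun u hu z => let ⟨x, p, q, r⟩ := cusp h u z hm.1.1 (le hu); ⟨x, ⟨p, q⟩, r⟩)
      (fun k x κ p q d => s2_nc zs mh (subset_closure (.inr (.inl rfl)))
        (Sv.det_cyc' hM tf hd hT act red iso le fi ((fg_iff _).2 ⟨_, rfl, toFinite _⟩) x
          (fun i => (p i).1.1) q (fun i => let ⟨u, hu, z, e⟩ := (p i).2
            s2_nc z ⟨mh, (p i).1.2⟩ ⟨hu, e⟩) κ d le_rfl))
      ⟨ad, hm.1.2⟩ ⟨ad', hm.2⟩ hs.2 ht.2)).elim
  have pw : ∀ x ∈ stabilizer G v, ∃ n : ℤ, n ≠ 0 ∧ Commute h (x ^ n) := fun x hx => by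
    obtain ⟨n, n0, -, k⟩ := exists_pow_mem_of_index_ne_zero fi.index_ne_zero
      (⟨x, hx⟩ : stabilizer G v)
    exact ⟨n, by omega, by simpa using cen _ k⟩
  have all : ∀ u, Γ.Adj v u → (h * h) • u = u := fun u k => by
    obtain ⟨e⟩ := iso u k
    have x1 : (e.symm (.ofAdd (1, 0))).1 ≠ 1 := fun q => by
      have := congrArg e (Subtype.ext q : e.symm (.ofAdd (1, 0)) = 1)
      rw [e.apply_symm_apply, map_one] at this
      exact one_ne_zero (congrArg (fun x => x.toAdd.1) this)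
    have hx := (e.symm (.ofAdd (1, 0))).2
    obtain ⟨y, hy, z⟩ := s2_ray e hx x1
    obtain ⟨m, m0, cm⟩ := pw _ hx.1
    obtain ⟨n, n0, cn⟩ := pw _ hy.1
    exact sq u k _ _ h (s2_swap (pg_zpow (s2_swap (pg_zpow z n0)) m0)) (zpow_mem hx m)
      (zpow_mem hy n) cm cn
  let Y : Subgroup G := stabilizer G v ⊓ ⨅ u : {u // Γ.Adj v u}, stabilizer G u.1
  have mY : ∀ x, x ∈ Y ↔ x • v = v ∧ ∀ u, Γ.Adj v u → x • u = u := fun x => by
    simp [Y]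
  have : IsCyclic ↥(stabilizer G v ⊓ stabilizer G w ⊓ stabilizer G w') := rk w w' ad ad' ne
  obtain ⟨y, hy⟩ := s2_gen (isCyclic_of_le (H := Y)
    (H' := stabilizer G v ⊓ stabilizer G w ⊓ stabilizer G w') fun x k =>
      ⟨⟨k.1, ((mY x).1 k).2 w ad⟩, ((mY x).1 k).2 w' ad'⟩)
  have y1 := (mY y).1 (hy.ge (mem_zpowers y))
  refine ⟨y, fun e => h1 (pg_pw tf two_ne_zero ?_), y1.1, y1.2, fun g gv => hy.le ((mY _).2 ⟨?_,
    fun u k => ?_⟩)⟩
  · have : h * h ∈ zpowers y := hy.le ((mY _).2 ⟨mul_mem hm.1.1 hm.1.1, all⟩)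
    rwa [e, zpowers_one_eq_bot, mem_bot, ← zpow_two] at this
  · exact (stabilizer G v).mul_mem ((stabilizer G v).mul_mem gv y1.1) ((stabilizer G v).inv_mem gv)
  · rw [mul_smul, mul_smul, y1.2 _ (adj _ ((stabilizer G v).inv_mem gv) u k), smul_inv_smul]

/-- the midpoint of a reversed wall has a fibre -/
theorem mid_sei {S : Std T} {hd tl : S.cf.U → V} (J : Jw0 S Γ hd tl) {e : S.cf.U}
    (i : Nh.Iv G S.cf.ust e) : Sv.Sei G Γ (tl e) := by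
  obtain ⟨g, hg⟩ := i
  obtain ⟨x, x1, x2⟩ := Kl.can_nc S e.2.1 (congrArg Subtype.val hg)
  obtain ⟨p, -, -, -, a, b, c, d⟩ := Kl.mid S.tf J.tr (S.cf.u_stab e ▸ e.2.1.z2 S) hg
    ⟨x, Subtype.ext x1, x2⟩
  exact ⟨p, a, c, d, fun y k => (b y k).elim (fun q => q.symm ▸ mem_zpowers p)
    fun q => q.symm ▸ inv_mem (mem_zpowers p)⟩

/-- two edges at an ordinary vertex have a cyclic common group -/
theorem hd_rk {S : Std T} {hd tl : S.cf.U → V} (J : Jw0 S Γ hd tl) (e : S.cf.U) (w w' : V)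
    (a : Γ.Adj (hd e) w) (a' : Γ.Adj (hd e) w') (n : w ≠ w') :
    IsCyclic ↥(stabilizer G (hd e) ⊓ stabilizer G w ⊓ stabilizer G w') := by
  obtain ⟨f, q, rfl⟩ := (J.tr.nb J.sy.poc e w).1 a
  obtain ⟨f', q', rfl⟩ := (J.tr.nb J.sy.poc e w').1 a'
  have := J.sy.rk _ _ (((J.tr.hdq f f').1 (q.trans q'.symm)).resolve_left
    fun k => n (congrArg tl k)).1
  refine isCyclic_of_le (H' := stabilizer G (S.cf.ust f) ⊓ stabilizer G f') fun x k => ⟨?_, ?_⟩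
  · show x • S.cf.ust f = _
    rw [← J.sy.poc.ast, (J.tr.stab x f).1 ⟨q ▸ k.1.1, k.1.2⟩]
  · exact (J.tr.stab x f').1 ⟨q' ▸ k.1.1, k.2⟩

theorem s2_sq (S : Std T) {A : Set X0} {a b g : G} (hA : Can T A) (z : Z2 a b) (ha : a • A = A)
    (hb : b • A = A) (ca : Commute g a) (cb : Commute g b) : (g * g) • A = A := by
  rcases hA.comm S (hA.smul g) z ha hb (by rw [← mul_smul, ← ca.eq, mul_smul, ha])
    (by rw [← mul_smul, ← cb.eq, mul_smul, hb]) with e | e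
  · rw [mul_smul, e, e]
  · rw [mul_smul, e, ← hA.st_smul S, e, hA.st_st S]

theorem s2_sei' (S : Std T) (du : ∀ E : Subgroup G, ¬ E.FiniteIndex → E.FG → Dual T E)
    {hd tl : S.cf.U → V} (J : Jw0 S Γ hd tl) (v : V) (n1 : ¬ S1 T v) (s : S2 G Γ v) :
    Sv.Sei G Γ v := by
  obtain ⟨e, rfl | ⟨i, rfl⟩⟩ := J.tr.all v
  swap
  · exact mid_sei J i
  refine s2_core S.mfd S.tf du J.tr.tree J.tr.act J.red (J.edge _) (hd_rk J e)
    (fun a b z p q => (J.cusp _ a b z p q).resolve_right fun ⟨B, k⟩ => n1 ⟨a, b, B, z, p, q, k⟩)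
    (fun w ad a b g z p q c d => ?_) s
  obtain ⟨f, k⟩ := J.grp _ w ad
  exact (k.ge (s2_sq S f.2.1 z (k.le p) (k.le q) c d)).2

theorem s2_sei (S : Sd T) {hd tl : S.std.cf.U → V} (J : Jw0 S.std Γ hd tl) (v : V)
    (n1 : ¬ S1 T v) (s : S2 G Γ v) : Sv.Sei G Γ v := s2_sei' S.std S.dual J v n1 s

end Pool.Agent.Work.MP_3d425c_gt.Fs
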