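import Pool.Agent.Work.MP_3d425c_gt.Fs.Front
import Pool.Agent.Work.MP_3d425c_gt.Fs.S2
import Pool.Agent.Work.MP_3d425c_gt.Fr.S1

/-! The vertex groups that are not simple pieces have a fibre. -/

namespace Pool.Agent.Work.MP_3d425c_gt.Fs
open Set MulAction Pool.Agent.Work.MP_3d425c_gt.Md Pool.Agent.Work.MP_3d425c_gt.Bg
  Pool.Agent.Work.MP_3d425c_gt.Bq Pool.Agent.Work.MP_3d425c_gt.Cw
open scoped Pointwise

variable {G X0 X1 X2 X3 : Type} [Group G] [MulAction G X0] [MulAction G X1] [MulAction G X2]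
  [MulAction G X3] {T : Tri G X0 X1 X2 X3} {P : Set X0} {a b : G}

theorem fib_of (S : Std T) (hP : Can T P) (nu : ¬ Unc T P) : ∃ h B, Fib T h P B := by
  obtain ⟨B, hB, n⟩ : ∃ B, Can T B ∧ ¬ Nst T P B := by
    by_contra q
    exact nu ⟨hP, fun B hB => by_contra fun n => q ⟨B, hB, n⟩⟩
  obtain ⟨h, F⟩ := exists_fib S hP hB n
  exact ⟨h, B, F⟩

theorem no_unc (S : Sd T) (z : Z2 a b) (n : ¬ ∃ A, Unc T A) :
    ∃ h : G, h ≠ 1 ∧ (Subgroup.zpowers h).Normal := by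
  obtain ⟨A, hA, -⟩ := exists_can S.std z
  obtain ⟨h, B, F⟩ := fib_of S.std hA fun u => n ⟨_, u⟩
  have fx : ∀ g : G, h • g • A = g • A := fun g => by_contra fun q =>
    let ⟨D, u, _⟩ := front S F (hA.smul g) q
    n ⟨D, u⟩
  refine ⟨h, F.ne, ⟨?_⟩⟩
  rintro _ ⟨m, rfl⟩ g
  rw [← conj_zpow]
  simpa only [inv_inv] using Subgroup.zpow_mem _ (F.cj S.std (fx g⁻¹)) m

theorem frt_fib (S : Sd T) (hP : Can T P) (nu : ¬ Unc T P) : ∃ h : G, h ≠ 1 ∧ Fr.Frt T P h := by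
  obtain ⟨h, B, F⟩ := fib_of S.std hP nu
  refine ⟨h, F.ne, fun U u s => ?_⟩
  by_cases f : h • U = U
  · exact ⟨U, u, f, Subset.rfl, s⟩
  obtain ⟨D, d, fd, i, o⟩ := front S F u.1 f
  refine ⟨D, d, fd, i.resolve_right fun i => ?_, o⟩
  have c := hP.star S.std
  rcases s with s | s
  · rcases o with o | o
    · exact fm_both S.std u.1 hP s (i.trans o)
    · exact nu (s.antisymm (hP.st_st S.std ▸ fm_anti S.std u.1 c (i.trans o)) ▸ u)
  · rcases o with o | o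
    · have e : U = st T P := s.antisymm (fm_anti S.std u.1 hP (i.trans o))
      exact nu ⟨hP, fun B hB => (nst_st' S.std hP hB).1 (e ▸ u.2 B hB)⟩
    · exact fm_both S.std u.1 c s (i.trans o)

theorem vert_sei (S : Sd T) {V : Type} [MulAction G V] {Γ : SimpleGraph V}
    {hd tl : S.std.cf.U → V} (J : Jw0 S.std Γ hd tl) (v : V) (s : S1 T v ∨ S2 G Γ v) :
    Sv.Sei G Γ v := by
  by_cases n : S1 T v
  · exact Fr.s1_sei J (fun _ => frt_fib S) n
  · exact s2_sei S J v n (s.resolve_left n)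

end Pool.Agent.Work.MP_3d425c_gt.Fs
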