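import Pool.Agent.Work.MP_3d425c_gt.Fl.Glue
import Pool.Agent.Work.MP_3d425c_gt.Fs.Vert

/-! A taut foliation on a closed three-manifold with vanishing first Betti number makes the
fundamental group left orderable. -/

namespace Pool.Agent.Work.MP_3d425c_gt.Fs
open MulAction Pool.Agent.Work.MP_3d425c_gt.Md Pool.Agent.Work.MP_3d425c_gt.Cw
open scoped Manifold ContDiff

theorem goals {G X0 X1 X2 X3 : Type} [Group G] [MulAction G X0] [MulAction G X1]
    [MulAction G X2] [MulAction G X3] (T : Tri G X0 X1 X2 X3) : GoalV T ∧ GoalU T := by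
  have sd : Std T → Nv.Disc T → Fs.Sd T := fun S hD =>
    ⟨S, fun E _ _ => Bq.dual_of S.mfd hD S.nh E, bound S.mfd S.tf⟩
  refine ⟨fun S hD _ _ _ _ _ _ J v s => Fs.vert_sei (sd S hD) J v s,
    fun S hD ab a b z => by_contra fun n => ?_⟩
  obtain ⟨h, k, N⟩ := Fs.no_unc (sd S hD) z n
  refine ab ⟨_, by simpa using k, N, ⟨{h}, by simp [Subgroup.zpowers_eq_closure]⟩, ?_⟩
  rintro _ ⟨i, rfl⟩ _ ⟨j, rfl⟩
  exact (Commute.refl h).zpow_zpow i j

variable {M : Type} [TopologicalSpace M] [ChartedSpace (EuclideanSpace ℝ (Fin 3)) M]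
  [IsManifold 𝓘(ℝ, EuclideanSpace ℝ (Fin 3)) ∞ M] [CompactSpace M] [T2Space M] [ConnectedSpace M]

theorem main (m : M) (h0 : ∀ χ : FundamentalGroup M m →* Multiplicative ℝ, χ = 1)
    {A : Set (OpenPartialHomeomorph M ((ℝ × ℝ) × ℝ))} (hA : Sm.Foliation A) (hT : Sm.Taut A) :
    Nontrivial (FundamentalGroup M m) ∧ Md.LO (FundamentalGroup M m) :=
  Fl.main_of (fun T => goals T) m h0 hA hT

end Pool.Agent.Work.MP_3d425c_gt.Fs
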