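import Pool.Agent.Work.MP_3d425c_gt.Cw.Can
import Pool.Agent.Work.MP_3d425c_gt.Fs.LC
import Pool.Agent.Work.MP_3d425c_gt.Fs.PPG

/-! The group of a cell that separates two walls has rank at least two. -/

namespace Pool.Agent.Work.MP_3d425c_gt.Fs
open Set MulAction Pool.Agent.Work.MP_3d425c_gt.Md Pool.Agent.Work.MP_3d425c_gt.Bg
  Pool.Agent.Work.MP_3d425c_gt.Bq Pool.Agent.Work.MP_3d425c_gt.Jw Pool.Agent.Work.MP_3d425c_gt.Cw
open scoped Pointwise

variable {G X0 X1 X2 X3 : Type} [Group G] [MulAction G X0] [MulAction G X1] [MulAction G X2]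
  [MulAction G X3] {T : Tri G X0 X1 X2 X3} {A B Z : Set X0} {J : Subgroup G} {h : G}

/-- a wall is not finite modulo a group of rank one -/
theorem sa_big (hA : Can T A) (dep : ∀ u ∈ J, ∃ i j : ℤ, i ≠ 0 ∧ u ^ i = h ^ j) : ¬ SmP J A :=
  fun s => by
  obtain ⟨a, b, z, w, l⟩ := hA
  have r := cn_orb T.free s l.mn.inv (cn_ne' w.big)
  have one : ∀ c ∈ pp a b, ∃ i j : ℤ, i ≠ 0 ∧ c ^ i = h ^ j := fun c hc => by
    obtain ⟨m, m0, -, hm⟩ := Subgroup.exists_pow_mem_of_relIndex_ne_zero r hc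
    obtain ⟨i, j, i0, e⟩ := dep _ hm.1
    exact ⟨m * i, j, mul_ne_zero (by omega) i0, by rw [zpow_mul, zpow_natCast, e]⟩
  obtain ⟨m, p, m0, e1⟩ := one a (cn_ma a b)
  obtain ⟨n, q, n0, e2⟩ := one b (cn_mb a b)
  have := z.2 (m * q) (-(n * p)) (by
    rw [zpow_neg, zpow_mul, zpow_mul, e1, e2, ← zpow_mul, ← zpow_mul, mul_comm, mul_inv_cancel])
  have p0 : p = 0 := (mul_eq_zero.1 (neg_eq_zero.1 this.2)).resolve_left n0
  exact m0 (z.2 m 0 (by rw [e1, p0, zpow_zero, zpow_zero, one_mul])).1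

/-- the group of a set with small coboundary between two walls has a lattice through `h` -/
theorem sa_rank (S : Std T) (h1 : h ≠ 1) (hJ : h ∈ J)
    (nrm : ∀ g ∈ J, g * h * g⁻¹ = h ∨ g * h * g⁻¹ = h⁻¹) (inv : Inv J Z) (fin : SmP J (cut T Z))
    (hA : Can T A) (hB : Can T B) (a : A ⊆ Z) (b : B ⊆ Zᶜ) : ∃ u ∈ J, Z2 h u := by
  by_contra n
  have cm : ∀ u ∈ J, Commute h u → ∃ i j : ℤ, i ≠ 0 ∧ u ^ i = h ^ j := fun u hu c =>
    pg_dep S.tf h1 c fun z => n ⟨u, hu, z⟩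
  have dep : ∀ u ∈ J, ∃ i j : ℤ, i ≠ 0 ∧ u ^ i = h ^ j := fun u hu => by
    rcases nrm u hu with e | e
    · exact cm u hu (mul_inv_eq_iff_eq_mul.1 e).symm
    · have c : u * u * h * (u * u)⁻¹ = h := by
        calc u * u * h * (u * u)⁻¹ = u * (u * h * u⁻¹) * u⁻¹ := by group
          _ = u * h⁻¹ * u⁻¹ := by rw [e]
          _ = (u * h * u⁻¹)⁻¹ := by group
          _ = h := by rw [e, inv_inv]
      obtain ⟨i, j, i0, k⟩ := cm _ (mul_mem hu hu) (mul_inv_eq_iff_eq_mul.1 c).symm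
      exact ⟨2 * i, j, mul_ne_zero two_ne_zero i0, by rw [zpow_mul, zpow_two, k]⟩
  have ⟨_, _, z, _⟩ := hA
  refine (lc S.mfd S.tf (fun E le fg => ?_) inv fin).elim (fun s => sa_big hA dep (s.mono a))
    fun s => sa_big hB dep (s.mono b)
  have := pg_cyc S.mfd S.tf z (E := E ⊔ Subgroup.zpowers h) (h := h)
    (fg.sup ((Subgroup.fg_iff _).2 ⟨{h}, (Subgroup.zpowers_eq_closure h).symm, finite_singleton h⟩))
    (Subgroup.mem_sup_right (Subgroup.mem_zpowers h))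
    fun u hu => dep u (sup_le le ((Subgroup.zpowers_le).2 hJ) hu)
  exact isCyclic_of_injective (Subgroup.inclusion (le_sup_left (b := Subgroup.zpowers h)))
    (Subgroup.inclusion_injective _)

end Pool.Agent.Work.MP_3d425c_gt.Fs
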