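import Pool.Agent.Work.MP_3d425c_gt.Fs.Cnt
import Pool.Agent.Work.MP_3d425c_gt.Fs.PPG

/-! A disjoint family of walls that carries all lattices through the fibre has one member. -/

namespace Pool.Agent.Work.MP_3d425c_gt.Fs
open Set MulAction Pool.Agent.Work.MP_3d425c_gt.Md Pool.Agent.Work.MP_3d425c_gt.Bg
  Pool.Agent.Work.MP_3d425c_gt.Bq Pool.Agent.Work.MP_3d425c_gt.Cw
open scoped Pointwise

variable {G X0 X1 X2 X3 : Type} [Group G] [MulAction G X0] [MulAction G X1] [MulAction G X2]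
  [MulAction G X3] {T : Tri G X0 X1 X2 X3} {h : G}

theorem uni (S : Sd T) {J : Subgroup G} (h1 : h ≠ 1) (hJ : h ∈ J) {F : Set (Set X0)}
    (can : ∀ D ∈ F, Can T D) (fix : ∀ D ∈ F, h • D = D) (inv : ∀ g ∈ J, ∀ D ∈ F, g • D ∈ F)
    (dis : ∀ D ∈ F, ∀ D' ∈ F, D = D' ∨ (D ⊆ D'ᶜ ∧ D ≠ st T D'))
    (rk : ∀ D ∈ F, ∃ u ∈ J, Z2 h u ∧ u • D = D)
    (cov : ∀ u ∈ J, Z2 h u → ∃ D ∈ F, u • D = D) {R : Set X0} (out : ∀ D ∈ F, R ⊆ Dᶜ)
    (big : ¬ SmP J R) : F.Subsingleton := by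
  intro x px y py
  obtain ⟨s, sJ, zs, sx⟩ := rk x px
  obtain ⟨t, tJ, zt, ty⟩ := rk y py
  have le : Subgroup.closure {h, s, t} ≤ J := (Subgroup.closure_le _).2 (by
    rintro _ (rfl | rfl | rfl) <;> assumption)
  have hE : h ∈ Subgroup.closure {h, s, t} := Subgroup.subset_closure (by simp)
  have sE : s ∈ Subgroup.closure {h, s, t} := Subgroup.subset_closure (by simp)
  refine ppg' (p := fun D => D ∈ F) S.std.mfd S.std.tf rfl zs zt (fun g hg => inv g (le hg))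
    (fun D hD => ⟨stabilizer G D, (can D hD).z2 S.std, fix D hD, fun _ _ k => k⟩)
    (fun D D' a b n u _ e e' z => ?_) (fun u hu z => cov u (le hu) z) (fun k w κ a b d => ?_)
    px py sx ty
  · obtain ⟨c, m⟩ := (dis D a D' b).resolve_left n
    rcases (can D' b).comm S.std (can D a) z (fix _ b) e' (fix _ a) e with k | k
    · exact n k
    · exact m k
  · exact cnt_nc zs hE sE (cnt S ((Subgroup.fg_iff _).2 ⟨_, rfl, toFinite _⟩) can
      (fun g hg => inv g (le hg)) (fun D a D' b => (dis D a D' b).imp_right And.left) out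
      (fun k => big (k.le le)) w (fun i => (a i).1) b
      (fun i => let ⟨u, hu, z, e⟩ := (a i).2; ⟨h, hE, u, hu, z, fix _ (a i).1, e⟩) κ d le_rfl)

end Pool.Agent.Work.MP_3d425c_gt.Fs
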