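import Pool.Agent.Work.MP_3d425c_gt.Cw.Tree
import Pool.Agent.Work.MP_3d425c_gt.Fs.Fam
import Pool.Agent.Work.MP_3d425c_gt.Fs.Uni
import Pool.Agent.Work.MP_3d425c_gt.Fs.Cap
import Pool.Agent.Work.MP_3d425c_gt.Fs.End
import Pool.Agent.Work.MP_3d425c_gt.Fs.LC

/-! The frontier wall of a family of crossing walls. -/

namespace Pool.Agent.Work.MP_3d425c_gt.Fs
open Set MulAction Pool.Agent.Work.MP_3d425c_gt.Md Pool.Agent.Work.MP_3d425c_gt.Bg
  Pool.Agent.Work.MP_3d425c_gt.Bq Pool.Agent.Work.MP_3d425c_gt.Cw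
open scoped Pointwise

variable {G X0 X1 X2 X3 : Type} [Group G] [MulAction G X0] [MulAction G X1] [MulAction G X2]
  [MulAction G X3] {T : Tri G X0 X1 X2 X3} {W : Set X0} {h : G} {L : Set (Set X0)}

/-- a wall is not finite modulo a group all of whose elements depend on `h` -/
theorem sg_big (S : Std T) (hW : Can T W) {J : Subgroup G}
    (dep : ∀ u ∈ J, ∃ i j : ℤ, i ≠ 0 ∧ u ^ i = h ^ j) : ¬ SmP J W := fun s => by
  obtain ⟨a, b, z, -, -, le, -⟩ := hW.idx S.mfd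
  have r := cn_orb T.free s (cn_inv_st W) (fm_ne S.mfd hW)
  obtain ⟨m, m0, -, hm⟩ := Subgroup.exists_pow_mem_of_relIndex_ne_zero r (le (cn_ma a b))
  obtain ⟨n, n0, -, hn⟩ := Subgroup.exists_pow_mem_of_relIndex_ne_zero r (le (cn_mb a b))
  obtain ⟨i, j, i0, e⟩ := dep _ hm.1
  obtain ⟨k, l, k0, e'⟩ := dep _ hn.1
  rw [← zpow_natCast, ← zpow_mul] at e e'
  have q := z.2 (m * i * l) (-(n * k * j)) (by
    rw [zpow_neg, zpow_mul, zpow_mul b, e, e', ← zpow_mul, ← zpow_mul, mul_comm j, mul_inv_cancel])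
  have l0 : l = 0 := (mul_eq_zero.1 q.1).resolve_left (mul_ne_zero (by omega) i0)
  rw [l0, zpow_zero] at e'
  exact mul_ne_zero (by omega : (n : ℤ) ≠ 0) k0 (z.2 0 _ (by rw [zpow_zero, one_mul, e'])).2

theorem stage (S : Sd T) (hL : Stage T h L) (hW : Can T W)
    (sub : ∀ l ∈ L, W ⊆ l ∨ W ⊆ st T l) : ∃ D, Frt T h L W D := by
  obtain ⟨x, -, C⟩ := cell_of S.std.mfd hL hW sub
  have hZ := fun p hp y => (⟨fun k l m => smul_mem_smul_set_iff.1 (k _ (C.inv p hp l m)),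
    fun k l m => mem_inv_smul_set_iff.1 (k _ (C.inv _ (inv_mem hp) l m))⟩ :
      p • y ∈ ⋂₀ {l ∈ L | W ⊆ l} ↔ y ∈ ⋂₀ {l ∈ L | W ⊆ l})
  have f := cap_cut S.std.cf hL.can hL.star (H := stabilizer G L) (fun g hg l m => by
    rw [← mem_stabilizer_iff.1 hg]
    exact smul_mem_smul_set m) hL.orb hL.le sub
  obtain ⟨l, hl⟩ := C.nonempty hL
  have big := C.big S.std hL (hL.star l (C.sub hl))
  by_cases c : ∃ u ∈ stabilizer G L ⊓ stabilizer G {l ∈ L | W ⊆ l}, Z2 h u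
  · obtain ⟨u, hu, z⟩ := c
    obtain ⟨D, k, -⟩ := C.cov S.std hL hu z
    have one := uni S hL.ne C.mem (fun _ => Fam.can) (fun _ => Fam.fix) (fun g m _ => C.act m)
      (fun _ a _ b => C.dis S.std hL a b) (fun _ => Fam.rk) (fun u m z => C.cov S.std hL m z)
      (fun _ a => C.out S.std hL a hl) big
    exact ⟨D, frt_of S.std hL hW sub hZ f (Fam.can k) C.mem hu z (fun g m => one (C.act m k) k)
      fun l m s => Fam.ins k ⟨m, s⟩⟩
  · have dep : ∀ u ∈ stabilizer G L ⊓ stabilizer G {l ∈ L | W ⊆ l},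
        ∃ i j : ℤ, i ≠ 0 ∧ u ^ i = h ^ j := fun u m => by
      have cm : Commute h (u * u) := by
        have e : u * u * h * (u * u)⁻¹ = u * (u * h * u⁻¹) * u⁻¹ := by group
        refine (mul_inv_eq_iff_eq_mul.1 (e.trans ?_)).symm
        rcases C.nrm u m with q | q
        · rw [q, q]
        · rw [q, ← conj_inv, q, inv_inv]
      obtain ⟨i, j, i0, e⟩ := pg_dep S.std.tf hL.ne cm fun z => c ⟨_, mul_mem m m, z⟩
      exact ⟨2 * i, j, by omega, by rw [zpow_mul, zpow_two, e]⟩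
    obtain ⟨a, b, z, -⟩ := hW.idx S.std.mfd
    refine ((lc S.std.mfd S.std.tf (fun E le fg => ?_) hZ f).elim
      (fun s => sg_big S.std hW dep (s.mono (subset_sInter fun _ m => m.2)))
      fun s => big (s.mono (((hL.can l (C.sub hl)).st_sub S.std).trans
        (compl_subset_compl.2 (sInter_subset_of_mem hl))))).elim
    have := pg_cyc S.std.mfd S.std.tf z (E := E ⊔ Subgroup.zpowers h)
      (fg.sup ⟨{h}, by rw [Finset.coe_singleton, Subgroup.zpowers_eq_closure]⟩)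
      (Subgroup.mem_sup_right (Subgroup.mem_zpowers h))
      fun u m => dep u (sup_le le (Subgroup.zpowers_le.2 C.mem) m)
    exact Subgroup.isCyclic_of_le (le_sup_left (b := Subgroup.zpowers h))

end Pool.Agent.Work.MP_3d425c_gt.Fs
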